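import Pool.Agent.Lib.MP_1a91b9_ntW.DJ.Joint
import Pool.Agent.Lib.MP_1a91b9_ntW.D.Glue8

/-!
# MP_1a91b9_nt (twists over `Q(√-2)`, several twists), part D: the joint density of `GW k j S ≠ 0`

`GWJ_lower`: for pairwise different labels `(k i, j i, T i)`, `T i ⊆ B`, `i < N`, the sets `S` of primes
outside `B` with `GW (k i) (j i) (S ∪ T i) ≠ 0` for all `i` have lower density at least `cinf2 ^ N` in
every class.
-/

set_option autoImplicit false
set_option linter.unusedSectionVars false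

namespace Pool.Agent.Lib.MP_1a91b9_ntW

open Finset Filter Topology Pool.Agent.Lib.MP_1a91b9_ntH Pool.Agent.Lib.MP_1a91b9_ntQ
open Pool.Agent.Lib.MP_1a91b9_ntQ.Da
open Pool.Agent.Lib.MP_1a91b9_ntV

noncomputable section

/-! ### The constant -/

theorem cinf2_pos' : 0 < cinf2 := by
  by_contra h
  rw [cinf2_eq] at h
  push Not at h
  have h1 : (1 : ℝ) ≤ 0 := le_of_tendsto' tendsto_prod2 fun n =>
    mul_nonpos_of_nonneg_of_nonpos (prod_nonneg fun i _ => by positivity) h
  linarith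

theorem cinf2_half : cinf2 ≤ 1 / 2 := by
  have h0 := cinf2_pos'
  rw [cinf2_eq] at h0 ⊢
  have h1 : (135 / 64 : ℝ) * fs2 (-1 / 2) ≤ 1 := by
    refine ge_of_tendsto tendsto_prod2 ?_
    filter_upwards [eventually_ge_atTop 3] with n hn
    refine mul_le_mul_of_nonneg_right ?_ h0.le
    have h2 : (135 / 64 : ℝ) = ∏ i ∈ range 3, (1 + (1 / 2 : ℝ) ^ (i + 1)) := by
      rw [prod_range_succ, prod_range_succ, prod_range_one]
      norm_num
    rw [h2]
    refine prod_le_prod_of_subset_of_one_le (range_subset_range.2 hn)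
      (fun i _ => by positivity) fun i _ _ => ?_
    have : (0 : ℝ) ≤ (1 / 2) ^ (i + 1) := by positivity
    linarith
  linarith

/-! ### The coefficients -/

/-- The coefficients of the three indicator functions. -/
def uuJ (p : Prop) [Decidable p] (K : Finset (ZMod 2)) : Fin 3 → ℝ :=
  if p then ![0, 0, 1] else if 0 ∈ K then if 1 ∈ K then ![1 / 2, 1 / 2, -1 / 2] else ![1, 0, 0]
    else ![0, 1, 0]

theorem K_cases : ∀ K : Finset (ZMod 2), K.Nonempty →
    (0 ∈ K ∧ 1 ∈ K ∧ K.card = 2) ∨ (0 ∈ K ∧ 1 ∉ K ∧ K.card = 1) ∨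
      (0 ∉ K ∧ 1 ∈ K ∧ K.card = 1) := by
  decide

theorem uuJ_sum (p : Prop) [Decidable p] {K : Finset (ZMod 2)} (hK : K.Nonempty) :
    cinf2 ^ K.card ≤ cinf2 * ∑ i, uuJ p K i := by
  have h0 := cinf2_pos'
  have h1 := cinf2_half
  rw [Fin.sum_univ_three]
  unfold uuJ
  by_cases hp : p
  · rw [if_pos hp]
    change cinf2 ^ K.card ≤ cinf2 * (0 + 0 + 1)
    rw [zero_add, zero_add, mul_one]
    exact pow_le_of_le_one h0.le (by linarith) (card_ne_zero.2 hK)
  · rw [if_neg hp]
    rcases K_cases K hK with ⟨h2, h3, h4⟩ | ⟨h2, h3, h4⟩ | ⟨h2, h3, h4⟩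
    · rw [if_pos h2, if_pos h3, h4]
      change cinf2 ^ 2 ≤ cinf2 * (1 / 2 + 1 / 2 + -1 / 2)
      nlinarith
    · rw [if_pos h2, if_neg h3, h4]
      change cinf2 ^ 1 ≤ cinf2 * (1 + 0 + 0)
      linarith
    · rw [if_neg h2, h4]
      change cinf2 ^ 1 ≤ cinf2 * (0 + 1 + 0)
      linarith

theorem uuJ_ind (p : Prop) [Decidable p] {K : Finset (ZMod 2)} (hK : K.Nonempty)
    {G : ZMod 2 → ZMod 2} {d : Fin 3 → ZMod 2} (h1 : p → ∀ k, G k = d 2)
    (h2 : ¬ p → G 0 = d 0 ∧ G 1 = d 1) (h3 : d 1 = d 0 + d 2) :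
    (∑ i, uuJ p K i * if d i ≠ 0 then (1 : ℝ) else 0) = if ∀ k ∈ K, G k ≠ 0 then 1 else 0 := by
  have h01 : ∀ x : ZMod 2, x = 0 ∨ x = 1 := by decide
  rw [Fin.sum_univ_three]
  unfold uuJ
  by_cases hp : p
  · rw [if_pos hp]
    change 0 * _ + 0 * _ + 1 * _ = _
    rw [zero_mul, zero_mul, zero_add, zero_add, one_mul]
    refine if_congr ?_ rfl rfl
    obtain ⟨k0, hk0⟩ := hK
    exact ⟨fun h k _ => by rw [h1 hp k]; exact h, fun h => by rw [← h1 hp k0]; exact h k0 hk0⟩
  · rw [if_neg hp]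
    obtain ⟨h4, h5⟩ := h2 hp
    rcases K_cases K hK with ⟨h6, h7, -⟩ | ⟨h6, h7, -⟩ | ⟨h6, h7, -⟩
    · rw [if_pos h6, if_pos h7]
      have h8 : (∀ k ∈ K, G k ≠ 0) ↔ d 0 ≠ 0 ∧ d 1 ≠ 0 := by
        constructor
        · intro h
          have h9 := h 0 h6
          have h10 := h 1 h7
          rw [h4] at h9
          rw [h5] at h10
          exact ⟨h9, h10⟩
        · rintro ⟨h9, h10⟩ k _
          rcases h01 k with rfl | rfl
          · rw [h4]
            exact h9
          · rw [h5]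
            exact h10
      rw [if_congr h8 rfl rfl]
      change 1 / 2 * _ + 1 / 2 * _ + -1 / 2 * _ = _
      rcases h01 (d 0) with h9 | h9 <;> rcases h01 (d 2) with h10 | h10
      · rw [h9, h10, add_zero] at h3
        simp [h9, h10, h3]
      · rw [h9, h10, zero_add] at h3
        simp only [h9, h10, h3, ne_eq, one_ne_zero, not_false_eq_true, not_true_eq_false,
          false_and, if_true, if_false]
        norm_num
      · rw [h9, h10, add_zero] at h3
        simp only [h9, h10, h3, ne_eq, one_ne_zero, not_false_eq_true, not_true_eq_false, and_self,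
          if_true, if_false]
        norm_num
      · have h11 : (1 : ZMod 2) + 1 = 0 := by decide
        rw [h9, h10, h11] at h3
        simp only [h9, h10, h3, ne_eq, one_ne_zero, not_false_eq_true, not_true_eq_false,
          and_false, if_true, if_false]
        norm_num
    · rw [if_pos h6, if_neg h7]
      change 1 * _ + 0 * _ + 0 * _ = _
      rw [zero_mul, zero_mul, add_zero, add_zero, one_mul]
      refine if_congr ?_ rfl rfl
      constructor
      · intro h k hk
        rcases h01 k with rfl | rfl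
        · rw [h4]
          exact h
        · exact absurd hk h7
      · intro h
        have h9 := h 0 h6
        rwa [h4] at h9
    · rw [if_neg h6]
      change 0 * _ + 1 * _ + 0 * _ = _
      rw [zero_mul, zero_mul, add_zero, zero_add, one_mul]
      refine if_congr ?_ rfl rfl
      constructor
      · intro h k hk
        rcases h01 k with rfl | rfl
        · exact absurd hk h6
        · rw [h5]
          exact h
      · intro h
        have h9 := h 1 h7
        rwa [h5] at h9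

/-! ### The three determinants and `GW` -/

section GW

variable {κ : Type} [Fintype κ] [DecidableEq κ] {D : Dat2 Pg κ} {w l : κ → ZMod 2}

theorem rj_dg (h : Id8 D w l) (j : ZMod 2) :
    rj j = fun q => rr q.1 + D.dg (j • l) q := by
  funext q
  rw [dg_smul, h.el]
  rfl

theorem GW_two (h : Id8 D w l) {k j z : ZMod 2} {U : Finset Pg} (hj : j = 0 ∨ AS U = 1) :
    GW k j U = dt D w l (fun q => rr q.1) j z U 2 := by
  rw [GW_U h hj, dt_two, rj_dg h]

theorem GW_zero (h : Id8 D w l) {j : ZMod 2} {U : Finset Pg} (hj : ¬ (j = 0 ∨ AS U = 1)) :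
    GW 0 j U = dt D w l (fun q => rr q.1) j (lS U) U 0 := by
  have h1 : j = 1 := by
    have : ∀ x : ZMod 2, x ≠ 0 → x = 1 := by decide
    exact this _ fun h => hj (Or.inl h)
  have h5 : ∑ q ∈ U, D.dg l q = lS U := sum_congr rfl fun q _ => h.el q
  rw [GW_B h hj, dt_zero, h1, rj_dg h, h5, zero_add]

theorem GW_one (h : Id8 D w l) {j : ZMod 2} {U : Finset Pg} (hj : ¬ (j = 0 ∨ AS U = 1)) :
    GW 1 j U = dt D w l (fun q => rr q.1) j (lS U) U 1 := by
  have h1 : j = 1 := by
    have : ∀ x : ZMod 2, x ≠ 0 → x = 1 := by decide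
    exact this _ fun h => hj (Or.inl h)
  have h5 : ∑ q ∈ U, D.dg l q = lS U := sum_congr rfl fun q _ => h.el q
  rw [GW_B h hj, dt_one, h1, rj_dg h, h5, add_comm]

variable {B : Finset Pg} {G : Type} [AddCommGroup G] [Fintype G]

theorem dg_cls (C : Cl2 (D.off B) G) (v : κ → ZMod 2) {g : G} {X : ℕ} {S : Finset (Off B)}
    (hS : S ∈ SG C g X) : ∑ q ∈ up S, D.dg v q = ∑ i, v i * C.A (Sum.inl i) g := by
  rw [sum_up]
  unfold Dat2.dg
  rw [sum_comm]
  refine sum_congr rfl fun i _ => ?_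
  rw [← mul_sum, ← sum_a_of_mem C hS]
  rfl

theorem AS_union {S T : Finset Pg} (h : Disjoint S T) : AS (S ∪ T) = AS S + AS T := sum_union h

theorem lS_union {S T : Finset Pg} (h : Disjoint S T) : lS (S ∪ T) = lS S + lS T := sum_union h

/-- **The joint density.** -/
theorem GWJ_lower (h : Id8 D w l) (hD : OKw D w)
    (hB : ∀ (T : Finset Pg) (c : κ → ZMod 2), T ⊆ B → (T ≠ ∅ ∨ c ≠ 0) →
      Mz B (fun q => e2 (D.ex1 T c q))) (C : Cl2 (D.off B) G) (h3 : C.H3) {cl : Pg → G}
    (hcl : ∀ q, C.cl q = cl q.1) {N : ℕ} (hN : 0 < N) (k j : Fin N → ZMod 2)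
    (T : Fin N → Finset Pg) (hT : ∀ i, T i ⊆ B)
    (hinj : Function.Injective fun i => (k i, j i, T i)) (g : G) {κ₀ : ℝ}
    (hκ : κ₀ < cinf2 ^ N) (ε : ℝ) (hε : 0 < ε) : ∃ X₀ : ℕ, ∀ X : ℕ, X₀ ≤ X →
      κ₀ * ((SB B cl g X).card : ℝ) - ε * X ≤
        ((SB B cl g X).filter fun S => ∀ i, GW (k i) (j i) (S ∪ T i) ≠ 0).card := by
  classical
  set f : Fin N → ZMod 2 × Finset Pg := fun i => (j i, T i) with hf
  set K : (univ.image f) → Finset (ZMod 2) := fun a =>
    (univ.filter fun i => f i = a.1).image k with hKdef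
  have hK : ∀ a, (K a).Nonempty := by
    intro a
    obtain ⟨i, -, hi⟩ := mem_image.1 a.2
    exact ⟨k i, mem_image_of_mem k (mem_filter.2 ⟨mem_univ i, hi⟩)⟩
  have hcard : ∑ a, (K a).card = N := by
    have h1 : ∀ a, (K a).card = (univ.filter fun i => f i = a.1).card := by
      intro a
      refine card_image_of_injOn fun i hi i' hi' hii => hinj ?_
      have e1 : f i = a.1 := (mem_filter.1 (mem_coe.1 hi)).2
      have e2 : f i' = a.1 := (mem_filter.1 (mem_coe.1 hi')).2
      have e3 : f i = f i' := e1.trans e2.symm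
      exact Prod.ext hii e3
    rw [sum_congr rfl fun a _ => h1 a,
      sum_coe_sort (univ.image f) fun a => (univ.filter fun i => f i = a).card,
      ← card_eq_sum_card_image, card_univ, Fintype.card_fin]
  have hne : Nonempty (univ.image f) := ⟨⟨f ⟨0, hN⟩, mem_image_of_mem f (mem_univ _)⟩⟩
  have hTA : ∀ a : univ.image f, a.1.2 ⊆ B := by
    intro a
    obtain ⟨i, -, hi⟩ := mem_image.1 a.2
    rw [← hi]
    exact hT i
  set αw : ZMod 2 := ∑ i, w i * C.A (Sum.inl i) g with hαw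
  set αl : ZMod 2 := ∑ i, l i * C.A (Sum.inl i) g with hαl
  have hm := jd hD h.l0 h.lw hB C h3 (fun q => rr q.1) (A := univ.image f) (fun a => a.1.1)
    (T := fun a => a.1.2) hTA (fun a b h1 h2 => Subtype.ext (Prod.ext h1 h2))
    (fun a => αl + lS a.1.2) g (fun a => uuJ (a.1.1 = 0 ∨ αw + AS a.1.2 = 1) (K a))
  have hval : cinf2 ^ N ≤ cinf2 ^ Fintype.card (univ.image f) *
      ∏ a, ∑ i, uuJ (a.1.1 = 0 ∨ αw + AS a.1.2 = 1) (K a) i := by
    have h9 : cinf2 ^ N = ∏ a, cinf2 ^ (K a).card :=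
      (congrArg (fun n => cinf2 ^ n) hcard).symm.trans (prod_pow_eq_pow_sum _ _ _).symm
    refine (le_of_eq h9).trans ?_
    rw [← card_univ, ← prod_const, ← prod_mul_distrib]
    exact prod_le_prod (fun a _ => pow_nonneg cinf2_pos'.le _) fun a _ => uuJ_sum _ (hK a)
  obtain ⟨X0, h0⟩ := hm.lower (hκ.trans_le hval) ε hε
  refine ⟨X0, fun X hX => ?_⟩
  rw [SB_eq C hcl, filter_map, card_map, card_map]
  refine (h0 X hX).trans (le_of_eq ?_)
  rw [card_eq_sum_ones, sum_filter]
  push_cast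
  refine sum_congr rfl fun S hS => ?_
  have hprod : ∀ a : univ.image f, (∑ i, uuJ (a.1.1 = 0 ∨ αw + AS a.1.2 = 1) (K a) i *
      if dt D w l (fun q => rr q.1) a.1.1 (αl + lS a.1.2) (up S ∪ a.1.2) i ≠ 0
        then (1 : ℝ) else 0) =
      if ∀ kk ∈ K a, GW kk a.1.1 (up S ∪ a.1.2) ≠ 0 then 1 else 0 := by
    intro a
    have hdis : Disjoint (up S) a.1.2 := disjoint_of_subset_right (hTA a) (disj_up S)
    have hA : AS (up S ∪ a.1.2) = αw + AS a.1.2 := by
      rw [AS_union hdis, hαw, ← dg_cls C w hS]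
      congr 1
      exact sum_congr rfl fun q _ => (h.ew q).symm
    have hL : lS (up S ∪ a.1.2) = αl + lS a.1.2 := by
      rw [lS_union hdis, hαl, ← dg_cls C l hS]
      congr 1
      exact sum_congr rfl fun q _ => (h.el q).symm
    refine uuJ_ind _ (hK a) (G := fun kk => GW kk a.1.1 (up S ∪ a.1.2)) (fun hp kk => ?_)
      (fun hp => ?_) (dt_add ..)
    · exact GW_two h (by rw [hA]; exact hp)
    · have hp' : ¬ (a.1.1 = 0 ∨ AS (up S ∪ a.1.2) = 1) := by
        rw [hA]
        exact hp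
      have h1 := GW_zero h hp'
      have h2 := GW_one h hp'
      rw [hL] at h1 h2
      exact ⟨h1, h2⟩
  rw [prod_congr rfl fun a _ => hprod a]
  have hiff : (∀ i, GW (k i) (j i) (up S ∪ T i) ≠ 0) ↔
      ∀ a : univ.image f, ∀ kk ∈ K a, GW kk a.1.1 (up S ∪ a.1.2) ≠ 0 := by
    constructor
    · intro h1 a kk hkk
      obtain ⟨i, hi, rfl⟩ := mem_image.1 hkk
      have h2 : f i = a.1 := (mem_filter.1 hi).2
      rw [← h2]
      exact h1 i
    · intro h1 i
      exact h1 ⟨f i, mem_image_of_mem f (mem_univ i)⟩ (k i)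
        (mem_image_of_mem k (mem_filter.2 ⟨mem_univ i, rfl⟩))
  by_cases hall : ∀ i, GW (k i) (j i) (up S ∪ T i) ≠ 0
  · rw [prod_eq_one fun a _ => if_pos (hiff.1 hall a)]
    exact (if_pos hall).symm
  · have h1 : ∃ a : univ.image f, ¬ ∀ kk ∈ K a, GW kk a.1.1 (up S ∪ a.1.2) ≠ 0 := by
      by_contra hcon
      exact hall (hiff.2 fun a => not_not.1 fun h2 => hcon ⟨a, h2⟩)
    obtain ⟨a, ha⟩ := h1
    rw [prod_eq_zero (mem_univ a) (if_neg ha)]
    exact (if_neg hall).symm

end GW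

end

end Pool.Agent.Lib.MP_1a91b9_ntW
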