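import Pool.Agent.Lib.MP_1a91b9_ntW.R.DenJ8
import Pool.Agent.Lib.MP_1a91b9_ntW.DJ.GWJ

/-!
# MP_1a91b9_nt (twists over `Q(√-2)`, several twists), part D: the joint density, no hypothesis

`dsj8 : DSJ8`: the joint density of `GW k j S ≠ 0` for pairwise different labels.
-/

set_option autoImplicit false
set_option linter.unusedSectionVars false

namespace Pool.Agent.Lib.MP_1a91b9_ntW

open NumberField Finset
open Pool.Agent.Lib.MP_1a91b9_ntH (PS pr mem_pr sg nm Sx mem_Sx)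
open Pool.Agent.Lib.MP_1a91b9_ntQ (Dat2 Cl2 Off up Mz e2)
open Pool.Agent.Lib.MP_1a91b9_ntQ.Da (SB mem_SB cinf2)
open Pool.Agent.Lib.MP_1a91b9_ntR (sys GRB)

noncomputable section

/-- The mean values of the symbols at the primes of `B`. -/
theorem mz8 (B T : Finset Pg) (c : Fin 2 → ZMod 2) (hT : T ⊆ B) (h : T ≠ ∅ ∨ c ≠ 0) :
    Mz B (fun q => e2 (D8.ex1 T c q)) := by
  have h1 := (Pool.Agent.Lib.MP_1a91b9_ntR.dR_wt (R := 𝓞 K8) rcp8 (mod8 0) (two_pow_ne 0)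
    (cls8 0) (Pool.Agent.Lib.MP_1a91b9_ntR.wt_const _) B).mz T c hT
    (h.imp_right fun hc => Pool.Agent.Lib.MP_1a91b9_ntR.not_trW (cls8 0) hc)
  rw [ps_eq, dR_D8] at h1
  simp only [one_mul] at h1
  exact h1

open Classical in
theorem SB8_filter (n : ℕ) (B : Finset Pg) (g : GRB (mod8 n) B) (X : ℕ) :
    SB B (cB8 n B) g X =
      (Sx Pg X).filter fun S => Disjoint S B ∧ ∑ q ∈ S, cB8 n B q = g := by
  ext S
  rw [mem_SB, mem_filter]

theorem glue8 {n : ℕ} {B : Finset Pg} {g : GRB (mod8 n) B} {κ₀ : ℝ} {P : Finset Pg → Prop}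
    [DecidablePred P]
    (h : ∀ ε : ℝ, 0 < ε → ∃ X₀ : ℕ, ∀ X : ℕ, X₀ ≤ X →
      κ₀ * ((SB B (cB8 n B) g X).card : ℝ) - ε * X ≤ ((SB B (cB8 n B) g X).filter P).card)
    {Q : Finset Pg → Prop}
    (hPQ : ∀ S, Disjoint S B → ∑ q ∈ S, cB8 n B q = g → P S → Q S) : DSB8 n B g κ₀ Q := by
  classical
  intro ε hε
  obtain ⟨X0, h0⟩ := h ε hε
  refine ⟨X0, fun X hX => ?_⟩
  have h1 := h0 X hX
  rw [SB8_filter] at h1
  refine h1.trans ?_
  rw [Nat.cast_le]
  refine card_le_card fun S hS => ?_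
  rw [mem_filter, mem_filter] at hS
  rw [mem_filter]
  exact ⟨hS.1.1, hS.1.2.1, hS.1.2.2, hPQ S hS.1.2.1 hS.1.2.2 hS.2⟩

/-- **The joint density of the good sets of primes.** -/
theorem dsj8 : DSJ8 := by
  classical
  intro N hN k j T B hT hinj n g κ₀ hκ
  have hfin : Finite (GRB (mod8 n) B) := inferInstance
  have : Fintype (GRB (mod8 n) B) := Fintype.ofFinite _
  exact glue8 (fun ε hε => GWJ_lower id8 okw8 (fun T c h1 h2 => mz8 B T c h1 h2) (C8B n B)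
    (h3_8B n B) (cl := cB8 n B) (fun _ => rfl) hN k j T hT hinj g hκ ε hε) fun S _ _ h => h

end

end Pool.Agent.Lib.MP_1a91b9_ntW
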