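import Pool.Agent.Lib.MP_1a91b9_ntW.DJ.Off

/-!
# MP_1a91b9_nt (twists over `Q(√-2)`, several twists), part D: three systems for every label

The label `a` has the bit `j a` and the set of primes `T a ⊆ B`. The three matrices of a label: with
the border `l` and the corners `z a`, `z a + 1`, and without border. `jd`: the mean values of the
products of linear combinations of the three indicator functions.
-/

set_option autoImplicit false
set_option linter.unusedSectionVars false

namespace Pool.Agent.Lib.MP_1a91b9_ntW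

open Finset Pool.Agent.Lib.MP_1a91b9_ntH Pool.Agent.Lib.MP_1a91b9_ntQ
open Pool.Agent.Lib.MP_1a91b9_ntQ.Da
open Pool.Agent.Lib.MP_1a91b9_ntV

noncomputable section

/-- The sizes of the borders of the three systems. -/
def nb : Fin 3 → ℕ := ![1, 1, 0]

/-- The corners of the three systems. -/
def zi : Fin 3 → ZMod 2 := ![0, 1, 0]

theorem nb_le (i : Fin 3) : nb i ≤ 1 := by
  revert i
  decide

instance subNb (i : Fin 3) : Subsingleton (Fin (nb i)) := by
  constructor
  intro a b
  have h1 := a.2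
  have h2 := b.2
  have h3 := nb_le i
  exact Fin.ext (by omega)

section Det

variable {ι : Type} [DecidableEq ι]

/-- The border with one column. -/
theorem det_NXB_one (s : ι → ι → ZMod 2) (x b : ι → ZMod 2) (z : ZMod 2) (S : Finset ι) :
    (NXB s x (fun q (_ : Fin 1) => b q) (fun _ _ => z) S).det =
      (NXB s x (fun q (_ : Unit) => b q) (fun _ _ => z) S).det := by
  have h1 : NXB s x (fun q (_ : Fin 1) => b q) (fun _ _ => z) S =
      (NXB s x (fun q (_ : Unit) => b q) (fun _ _ => z) S).submatrix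
        (Equiv.sumCongr (Equiv.refl _) finOneEquiv)
        (Equiv.sumCongr (Equiv.refl _) finOneEquiv) := by
    ext i j
    rcases i with i | e <;> rcases j with j | f <;> rfl
  rw [h1, Matrix.det_submatrix_equiv_self]

/-- The change of the corner. -/
theorem det_corner (s : ι → ι → ZMod 2) (x b : ι → ZMod 2) (z : ZMod 2) (S : Finset ι) :
    (NXB s x (fun q (_ : Unit) => b q) (fun _ _ => z + 1) S).det =
      (NXB s x (fun q (_ : Unit) => b q) (fun _ _ => z) S).det + (NX s x S).det := by
  have h1 : NXB s x (fun q (_ : Unit) => b q) (fun _ _ => z + 1) S =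
      (NXB s x (fun q (_ : Unit) => b q) (fun _ _ => z) S).updateRow (Sum.inr ())
        (NXB s x (fun q (_ : Unit) => b q) (fun _ _ => z) S (Sum.inr ()) +
          Sum.elim (fun _ => 0) fun _ => 1) := by
    ext i j
    rcases i with i | e
    · rw [Matrix.updateRow_ne (by simp)]
      rcases j with j | f <;> rfl
    · rw [Matrix.updateRow_self]
      rcases j with j | f
      · change b j = b j + 0
        rw [add_zero]
      · rfl
  rw [h1, Matrix.det_updateRow_add, Matrix.updateRow_eq_self]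
  congr 1
  have h2 : (NXB s x (fun q (_ : Unit) => b q) (fun _ _ => z) S).updateRow (Sum.inr ())
      (Sum.elim (fun _ => 0) fun _ => 1) =
      Matrix.fromBlocks (NX s x S) (Matrix.of fun i _ => b i) 0 1 := by
    ext i j
    rcases i with i | e
    · rw [Matrix.updateRow_ne (by simp)]
      rcases j with j | f <;> rfl
    · rw [Matrix.updateRow_self]
      rcases j with j | f
      · rfl
      · rw [Matrix.fromBlocks_apply₂₂, Subsingleton.elim e f, Matrix.one_apply_eq]
        rfl
  rw [h2, Matrix.det_fromBlocks_zero₂₁, Matrix.det_one, mul_one]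

end Det

section Sys

variable {ι : Type} [DecidableEq ι] {κ : Type} [Fintype κ] [DecidableEq κ]

/-- The three determinants. -/
def dt (D : Dat2 ι κ) (w l : κ → ZMod 2) (r : ι → ZMod 2) (j z : ZMod 2) (U : Finset ι)
    (i : Fin 3) : ZMod 2 :=
  (NXB D.s (xD D w (fun q => r q + D.dg (j • l) q) U) (D.bd fun k (_ : Fin (nb i)) => l k)
    (fun _ _ => z + zi i) (mo D w U)).det

variable (D : Dat2 ι κ) (w l : κ → ZMod 2) (r : ι → ZMod 2) (j z : ZMod 2) (U : Finset ι)

theorem dt_zero : dt D w l r j z U 0 =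
    (NXB D.s (xD D w (fun q => r q + D.dg (j • l) q) U) (fun q (_ : Unit) => D.dg l q)
      (fun _ _ => z) (mo D w U)).det := by
  refine Eq.trans ?_ (det_NXB_one D.s _ (fun q => D.dg l q) z (mo D w U))
  have h : z + zi 0 = z := add_zero z
  unfold dt
  rw [h]
  rfl

theorem dt_one : dt D w l r j z U 1 =
    (NXB D.s (xD D w (fun q => r q + D.dg (j • l) q) U) (fun q (_ : Unit) => D.dg l q)
      (fun _ _ => z + 1) (mo D w U)).det :=
  Eq.trans rfl (det_NXB_one D.s _ (fun q => D.dg l q) (z + 1) (mo D w U))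

theorem dt_two : dt D w l r j z U 2 =
    (NX D.s (xD D w (fun q => r q + D.dg (j • l) q) U) (mo D w U)).det := by
  have : IsEmpty (Fin (nb 2)) := inferInstanceAs (IsEmpty (Fin 0))
  exact det_NXB_empty D.s _ _ _ _

theorem dt_add : dt D w l r j z U 1 = dt D w l r j z U 0 + dt D w l r j z U 2 := by
  rw [dt_one, dt_zero, dt_two, det_corner]

variable {D w l}

theorem hP_sub {F : Type} [Fintype F] [Subsingleton F] (hl0 : l ≠ 0) (hlw : l ≠ w)
    (x : F → ZMod 2)
    (h : (∀ j, ∑ e : F, l j * x e = 0) ∨ ∀ j, ∑ e : F, l j * x e = w j) : x = 0 := by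
  funext e
  by_contra hne
  have h1 : ∀ y : ZMod 2, y ≠ 0 → y = 1 := by decide
  have hx : x e = 1 := h1 _ hne
  have h2 : ∀ j, ∑ e : F, l j * x e = l j := by
    intro j
    rw [Fintype.sum_subsingleton _ e, hx, mul_one]
  simp only [h2] at h
  rcases h with h | h
  · exact hl0 (funext h)
  · exact hlw (funext h)

variable [PS ι]

/-- **The mean values of the products.** -/
theorem jd {G : Type} [AddCommGroup G] [Fintype G] (hD : OKw D w) (hl0 : l ≠ 0) (hlw : l ≠ w)
    {B : Finset ι} (hB : ∀ (T : Finset ι) (c : κ → ZMod 2), T ⊆ B → (T ≠ ∅ ∨ c ≠ 0) →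
      Mz B (fun q => e2 (D.ex1 T c q))) (C : Cl2 (D.off B) G) (h3 : C.H3) (r : ι → ZMod 2)
    {A : Type} [Fintype A] [DecidableEq A] [Nonempty A] (j : A → ZMod 2) {T : A → Finset ι}
    (hT : ∀ a, T a ⊆ B) (hinj : ∀ a b, j a = j b → T a = T b → a = b) (z : A → ZMod 2) (g : G)
    (u : A → Fin 3 → ℝ) :
    MVd (SG C g) (fun S => ∏ a, ∑ i, u a i *
      if dt D w l r (j a) (z a) (up S ∪ T a) i ≠ 0 then (1 : ℝ) else 0)
      (cinf2 ^ Fintype.card A * ∏ a, ∑ i, u a i) := by
  classical
  obtain ⟨αB, hαB⟩ : ∃ αB : ι → ZMod 2, ∀ b : B, αB b = C.A (Sum.inr b) g :=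
    ⟨fun b => if h : b ∈ B then C.A (Sum.inr ⟨b, h⟩) g else 0, fun b => dif_pos b.2⟩
  have hz : ∀ a b : A, a ≠ b → T a = T b → j a • l + j b • l ≠ 0 ∧ j a • l + j b • l ≠ w := by
    intro a b hab hTab
    have h1 : j a ≠ j b := fun h => hab (hinj a b h hTab)
    have h2 : ∀ x y : ZMod 2, x ≠ y → x + y = 1 := by decide
    rw [← add_smul, h2 _ _ h1, one_smul]
    exact ⟨hl0, hlw⟩
  refine (ind_sum (x := fun a i S => kW (D.off B) (wO B w)
    (fun q => r q.1 + (D.off B).dg (coB B (T a) (j a • l)) q)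
    (PoW D w B (T a) (fun k (_ : Fin (nb i)) => l k))
    (RoW D w (T a) (fun t => r t + D.dg (j a • l) t + αB t) (fun k (_ : Fin (nb i)) => l k)
      (fun _ _ => z a + zi i)) S) (fun a i S => kW_pow _ _ _ _ _ _) (fun i k => ?_) u).congr
    (fun X S hS => ?_) rfl
  · exact momJ (OKw_off hD hB) C h3 (fun q => r q.1) (difW_off hT hz)
      (E := fun a => mo D w (T a) ⊕ Fin (nb (i a)))
      (P := fun a => PoW D w B (T a) (fun k (_ : Fin (nb (i a))) => l k))
      (R := fun a => RoW D w (T a) (fun t => r t + D.dg (j a • l) t + αB t)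
        (fun k (_ : Fin (nb (i a))) => l k) (fun _ _ => z a + zi (i a)))
      (fun a e f => RoW_symm hD.tw (T a) _ _ (fun _ _ => rfl) e f)
      (fun a => hP_off (hT a) (hP_sub hl0 hlw)) g k
  · refine prod_congr rfl fun a _ => sum_congr rfl fun i _ => ?_
    have hα : ∀ t ∈ T a, αB t = ∑ q ∈ up S, D.s q t := by
      intro t ht
      rw [hαB ⟨t, hT a ht⟩, ← sum_a_of_mem C hS, sum_up]
      rfl
    have h1 := det_glue (F := Fin (nb i)) hD.tw (hT a) r (j a • l) (fun k _ => l k)
      (fun _ _ => z a + zi i) hα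
    have h2 : dt D w l r (j a) (z a) (up S ∪ T a) i ≠ 0 ↔ kW (D.off B) (wO B w)
        (fun q => r q.1 + (D.off B).dg (coB B (T a) (j a • l)) q)
        (PoW D w B (T a) (fun k (_ : Fin (nb i)) => l k))
        (RoW D w (T a) (fun t => r t + D.dg (j a • l) t + αB t) (fun k (_ : Fin (nb i)) => l k)
        (fun _ _ => z a + zi i)) S = 1 := by
      rw [kW_eq_one, ← h1]
      rfl
    rw [if_congr h2 rfl rfl]

end Sys

end

end Pool.Agent.Lib.MP_1a91b9_ntW
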