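import Pool.Agent.Lib.MP_1a91b9_ntW.DJ.Lab
import Pool.Agent.Lib.MP_1a91b9_ntM.DJ.Lim

/-!
# MP_1a91b9_nt (twists over `Q(√-2)`, several twists), part D: the joint moments
-/

set_option autoImplicit false
set_option linter.unusedSectionVars false

namespace Pool.Agent.Lib.MP_1a91b9_ntW

open Finset Pool.Agent.Lib.MP_1a91b9_ntH Pool.Agent.Lib.MP_1a91b9_ntQ
open Pool.Agent.Lib.MP_1a91b9_ntQ.Da
open Pool.Agent.Lib.MP_1a91b9_ntV
open Pool.Agent.Lib.MP_1a91b9_ntM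

noncomputable section

open Classical in
/-- The value of the main terms of one system. -/
theorem TW_val {k : ℕ} {E : Type} [Fintype E] [DecidableEq E] {R : Matrix E E (ZMod 2)}
    (hR : ∀ e f, R e f = R f e) :
    ∑ m : E → Lab2 k, e2 (RF R m) * (((Lgs2 k).filter fun U => ∀ e, m e ∈ U).card : ℂ) =
      (2 ^ k) ^ Fintype.card E * (Nk2 k : ℂ) := by
  have h5 : ∑ m : E → Lab2 k, e2 (RF R m) * (((Lgs2 k).filter fun U => ∀ e, m e ∈ U).card : ℂ) =
      ∑ U ∈ Lgs2 k, ∑ m : E → Lab2 k, if ∀ e, m e ∈ U then 1 else 0 := by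
    have h1 : ∀ m : E → Lab2 k, e2 (RF R m) *
        (((Lgs2 k).filter fun U => ∀ e, m e ∈ U).card : ℂ) =
        ∑ U ∈ Lgs2 k, e2 (RF R m) * if ∀ e, m e ∈ U then (1 : ℂ) else 0 := by
      intro m
      rw [card_eq_sum_ones, sum_filter, Nat.cast_sum, Finset.mul_sum]
      refine sum_congr rfl fun U _ => ?_
      split_ifs <;> simp
    rw [sum_congr rfl fun m _ => h1 m, sum_comm]
    refine sum_congr rfl fun U hU => ?_
    refine sum_congr rfl fun m _ => ?_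
    by_cases h : ∀ e, m e ∈ U
    · rw [if_pos h, RF_mem hR (mem_Lgs2.1 hU) h, e2_zero, mul_one]
    · rw [if_neg h, mul_zero]
  have h6 : ∀ U ∈ Lgs2 k, ∑ m : E → Lab2 k, (if ∀ e, m e ∈ U then (1 : ℂ) else 0) =
      (2 ^ k) ^ Fintype.card E := by
    intro U hU
    have h7 : (univ.filter fun m : E → Lab2 k => ∀ e, m e ∈ U) = Fintype.piFinset fun _ => U := by
      ext m
      rw [mem_filter, Fintype.mem_piFinset]
      exact ⟨fun h => h.2, fun h => ⟨mem_univ _, h⟩⟩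
    rw [← sum_filter, sum_const, nsmul_eq_mul, mul_one, h7, Fintype.card_piFinset, prod_const,
      card_univ, (mem_Lgs2.1 hU).card]
    push_cast
    rfl
  rw [h5, sum_congr rfl h6, sum_const, card_Lgs2, nsmul_eq_mul, mul_comm]

variable {A : Type} [Fintype A] [DecidableEq A] {ι : Type} [DecidableEq ι] {κ : Type} [Fintype κ]
  [DecidableEq κ] {E : A → Type} [∀ a, Fintype (E a)] [∀ a, DecidableEq (E a)]

/-- The class vector of a label of the sum. -/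
def ccJ {k : A → ℕ} (c : A → κ → ZMod 2) (P : ∀ a, κ → E a → ZMod 2)
    (m : ∀ a, E a → Lab2 (k a)) (l : Lab2 (∑ a, k a)) : κ → ZMod 2 := cP c P m ((eqL k).symm l)

theorem ccJ_toL {k : A → ℕ} (c : A → κ → ZMod 2) (P : ∀ a, κ → E a → ZMod 2)
    (m : ∀ a, E a → Lab2 (k a)) (l : LabP k) : ccJ c P m (toL k l) = cP c P m l := by
  unfold ccJ
  rw [← eqL_apply, Equiv.symm_apply_apply]

theorem ccJ_zero {k : A → ℕ} (c : A → κ → ZMod 2) (P : ∀ a, κ → E a → ZMod 2)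
    (m : ∀ a, E a → Lab2 (k a)) : ccJ c P m 0 = 0 := by
  rw [← toL_zero, ccJ_toL]
  exact funext fun j => cP_zero j

open Classical in
/-- The main coefficient. -/
def TJ (k : A → ℕ) (w : κ → ZMod 2) (c : A → κ → ZMod 2) (P : ∀ a, κ → E a → ZMod 2)
    (R : ∀ a, Matrix (E a) (E a) (ZMod 2)) (c0 : κ → ZMod 2) : ℂ :=
  ∑ m : (∀ a, E a → Lab2 (k a)), (∏ a, e2 (RF (R a) (m a))) * ∑ U ∈ Lgs2 (∑ a, k a),
    if c0 = 0 ∧ ∀ l ∈ U, ccJ c P m l = 0 ∨ ccJ c P m l = w then 1 else 0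

theorem TJ_zero {k : A → ℕ} {w : κ → ZMod 2} {c : A → κ → ZMod 2} {P : ∀ a, κ → E a → ZMod 2}
    {R : ∀ a, Matrix (E a) (E a) (ZMod 2)} (hR : ∀ a e f, R a e f = R a f e) (hc : DifW c w)
    (hP : ∀ a, ∀ x : E a → ZMod 2,
      ((∀ j, ∑ e, P a j e * x e = 0) ∨ ∀ j, ∑ e, P a j e * x e = w j) → x = 0) :
    TJ k w c P R 0 = ∏ a, ((2 ^ k a) ^ Fintype.card (E a) * (Nk2 (k a) : ℂ)) := by
  classical
  have h1 : ∀ m : (∀ a, E a → Lab2 (k a)), (∑ U ∈ Lgs2 (∑ a, k a),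
      if (0 : κ → ZMod 2) = 0 ∧ ∀ l ∈ U, ccJ c P m l = 0 ∨ ccJ c P m l = w then (1 : ℂ) else 0) =
      ∏ a, (((Lgs2 (k a)).filter fun V => ∀ e, m a e ∈ V).card : ℂ) := by
    intro m
    have h2 := count_W (k := k) (m := m) hc hP
    rw [sum_Lgs2 fun U => if (0 : κ → ZMod 2) = 0 ∧ ∀ l ∈ U, ccJ c P m l = 0 ∨ ccJ c P m l = w
      then (1 : ℂ) else 0]
    have h3 : ∀ W ∈ MxF k, (if (0 : κ → ZMod 2) = 0 ∧ ∀ l ∈ imL W, ccJ c P m l = 0 ∨
        ccJ c P m l = w then (1 : ℂ) else 0) =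
        if ∀ l ∈ W, cP c P m l = 0 ∨ cP c P m l = w then 1 else 0 := by
      intro W _
      have h4 : ((0 : κ → ZMod 2) = 0 ∧ ∀ l ∈ imL W, ccJ c P m l = 0 ∨ ccJ c P m l = w) ↔
          ∀ l ∈ W, cP c P m l = 0 ∨ cP c P m l = w := by
        constructor
        · rintro ⟨_, h⟩ l hl
          have h5 := (forall_imL.1 h) l hl
          rwa [ccJ_toL] at h5
        · intro h
          refine ⟨rfl, forall_imL.2 fun l hl => ?_⟩
          rw [ccJ_toL]
          exact h l hl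
      by_cases h5 : ∀ l ∈ W, cP c P m l = 0 ∨ cP c P m l = w
      · rw [if_pos (h4.2 h5), if_pos h5]
      · rw [if_neg fun h => h5 (h4.1 h), if_neg h5]
    rw [sum_congr rfl h3, ← sum_filter, sum_const, nsmul_eq_mul, mul_one, h2, Nat.cast_prod]
  unfold TJ
  rw [sum_congr rfl fun m _ => congrArg (fun z => (∏ a, e2 (RF (R a) (m a))) * z) (h1 m)]
  have h6 : ∀ m : (∀ a, E a → Lab2 (k a)), (∏ a, e2 (RF (R a) (m a))) *
      ∏ a, (((Lgs2 (k a)).filter fun V => ∀ e, m a e ∈ V).card : ℂ) =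
      ∏ a, (e2 (RF (R a) (m a)) *
        (((Lgs2 (k a)).filter fun V => ∀ e, m a e ∈ V).card : ℂ)) := fun m =>
    (prod_mul_distrib).symm
  rw [sum_congr rfl fun m _ => h6 m]
  have h7 := Finset.prod_univ_sum (fun a => (univ : Finset (E a → Lab2 (k a))))
    (fun a (ma : E a → Lab2 (k a)) => e2 (RF (R a) ma) *
      (((Lgs2 (k a)).filter fun V => ∀ e, ma e ∈ V).card : ℂ))
  rw [Fintype.piFinset_univ] at h7
  rw [← h7]
  exact prod_congr rfl fun a _ => TW_val (hR a)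

/-- The product of the powers of the sizes of the kernels. -/
def kJ (D : Dat2 ι κ) (w : κ → ZMod 2) (r : ι → ZMod 2) (c : A → κ → ZMod 2)
    (P : ∀ a, κ → E a → ZMod 2) (R : ∀ a, Matrix (E a) (E a) (ZMod 2)) (k : A → ℕ)
    (S : Finset ι) : ℕ :=
  ∏ a, kW D w (fun q => r q + D.dg (c a) q) (P a) (R a) S ^ k a

theorem dg_cE (D : Dat2 ι κ) {k : ℕ} {E : Type} [Fintype E] (c : κ → ZMod 2)
    (P : κ → E → ZMod 2) (m : E → Lab2 k) (l : Lab2 k) (q : ι) :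
    D.dg (cE c P m l) q = D.dg c q * Q2 l + ∑ e, D.bd P q e * B2 l (m e) := by
  unfold Dat2.dg Dat2.bd cE
  simp only [add_mul, sum_add_distrib]
  congr 1
  · rw [sum_mul]
    exact sum_congr rfl fun j _ => by ring
  · simp only [sum_mul]
    rw [sum_comm]
    exact sum_congr rfl fun e _ => sum_congr rfl fun j _ => by ring

theorem dg_cP (D : Dat2 ι κ) {k : A → ℕ} (c : A → κ → ZMod 2)
    (P : ∀ a, κ → E a → ZMod 2) (m : ∀ a, E a → Lab2 (k a)) (l : LabP k) (q : ι) :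
    D.dg (cP c P m l) q = ∑ a, D.dg (cE (c a) (P a) (m a) (l a)) q := by
  unfold Dat2.dg cP
  simp only [sum_mul]
  exact sum_comm

/-- The exponent of a labelling for one system. -/
def exW (D : Dat2 ι κ) (w : κ → ZMod 2) (r : ι → ZMod 2) {k : ℕ} (cc : Lab2 k → κ → ZMod 2)
    (S : Finset ι) (f : mo D w S → Lab2 k) : ZMod 2 :=
  ∑ j : mo D w S, (xD D w r S j * Q2 (f j) + D.dg (cc (f j)) j) +
    ∑ j : mo D w S, ∑ l : mo D w S, PhiQ (f j) (f l) * D.s j l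

theorem kW_exp (D : Dat2 ι κ) (w : κ → ZMod 2) (r : ι → ZMod 2) {k : ℕ} {E : Type} [Fintype E]
    [DecidableEq E] (c : κ → ZMod 2) (P : κ → E → ZMod 2) (R : Matrix E E (ZMod 2))
    (S : Finset ι) :
    (kW D w (fun q => r q + D.dg c q) P R S : ℂ) ^ k *
      (2 ^ k) ^ ((mo D w S).card + Fintype.card E) =
      ∑ m : E → Lab2 k, e2 (RF R m) * ∑ f : mo D w S → Lab2 k, e2 (exW D w r (cE c P m) S f) := by
  rw [kW, kX_pow_mul]
  refine sum_congr rfl fun m _ => ?_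
  congr 1
  refine sum_congr rfl fun f _ => ?_
  congr 1
  unfold exW
  congr 1
  refine sum_congr rfl fun j _ => ?_
  rw [dg_cE]
  unfold xD
  ring

theorem exW_sum (D : Dat2 ι κ) (w : κ → ZMod 2) (r : ι → ZMod 2) {k : A → ℕ}
    (c : A → κ → ZMod 2) (P : ∀ a, κ → E a → ZMod 2) (m : ∀ a, E a → Lab2 (k a)) (S : Finset ι)
    (f : mo D w S → LabP k) :
    exW D w r (ccJ c P m) S (fun j => toL k (f j)) =
      ∑ a, exW D w r (cE (c a) (P a) (m a)) S fun j => f j a := by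
  unfold exW
  simp only [ccJ_toL, PhiQ_toL, Q2_toL, dg_cP]
  unfold QP PhiP
  simp only [sum_add_distrib, mul_sum, sum_mul]
  congr 1
  · congr 1
    · exact sum_comm
    · exact sum_comm
  · have h3 : ∀ j : mo D w S, ∑ l : mo D w S, ∑ a, PhiQ (f j a) (f l a) * D.s j l =
        ∑ a, ∑ l : mo D w S, PhiQ (f j a) (f l a) * D.s j l := fun j => sum_comm
    simp only [h3]
    exact sum_comm

/-- **The expansion of the product.** -/
theorem kJ_mul (D : Dat2 ι κ) {w : κ → ZMod 2}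
    (tw : ∀ p q, p ≠ q → D.s p q + D.s q p = D.dg w p * D.dg w q) (r : ι → ZMod 2)
    (c : A → κ → ZMod 2) (P : ∀ a, κ → E a → ZMod 2) (R : ∀ a, Matrix (E a) (E a) (ZMod 2))
    (k : A → ℕ) (h : ι → ℂ) (S : Finset ι) :
    (∏ q ∈ S, h q) * (kJ D w r c P R k S : ℂ) * ∏ a, ((2 : ℂ) ^ k a) ^ Fintype.card (E a) =
      ∑ m : (∀ a, E a → Lab2 (k a)), (∏ a, e2 (RF (R a) (m a))) *
        ∑ F : S → Lab2 (∑ a, k a), (∏ j : S, (LW D w h r (ccJ c P m)).g (F j) j) *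
          e2 (∑ j : S, ∑ l : S, (LW D w h r (ccJ c P m)).Phi (F j) (F l) * D.s j l) := by
  classical
  have hK : (2 : ℂ) ^ (∑ a, k a) = ∏ a, (2 : ℂ) ^ k a := (prod_pow_eq_pow_sum _ _ _).symm
  have hk : ((2 : ℂ) ^ (∑ a, k a)) ≠ 0 := pow_ne_zero _ (by norm_num)
  have e1 : ∀ m : (∀ a, E a → Lab2 (k a)), ∑ F : S → Lab2 (∑ a, k a),
      (∏ j : S, (LW D w h r (ccJ c P m)).g (F j) j) *
      e2 (∑ j : S, ∑ l : S, (LW D w h r (ccJ c P m)).Phi (F j) (F l) * D.s j l) =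
      (∏ q ∈ S, h q) * (((2 : ℂ) ^ (∑ a, k a))⁻¹) ^ (mo D w S).card *
        ∑ f : mo D w S → Lab2 (∑ a, k a), e2 (exW D w r (ccJ c P m) S f) := fun m =>
    lab_gen tw h r (ccJ c P m) (ccJ_zero c P m) S
  have e2' : ∀ m : (∀ a, E a → Lab2 (k a)), ∑ f : mo D w S → Lab2 (∑ a, k a),
      e2 (exW D w r (ccJ c P m) S f) =
      ∏ a, ∑ f : mo D w S → Lab2 (k a), e2 (exW D w r (cE (c a) (P a) (m a)) S f) := by
    intro m
    rw [Finset.prod_univ_sum, Fintype.piFinset_univ,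
      ← Equiv.sum_comp (Equiv.piComm fun (_ : mo D w S) (a : A) => Lab2 (k a)),
      ← Equiv.sum_comp (Equiv.piCongrRight fun _ : mo D w S => eqL k)]
    refine sum_congr rfl fun f _ => ?_
    rw [← e2_sum]
    congr 1
    exact exW_sum D w r c P m S f
  have h1 : (kJ D w r c P R k S : ℂ) * ((2 : ℂ) ^ (∑ a, k a)) ^ (mo D w S).card *
      ∏ a, ((2 : ℂ) ^ k a) ^ Fintype.card (E a) =
      ∏ a, ((kW D w (fun q => r q + D.dg (c a) q) (P a) (R a) S : ℂ) ^ k a *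
        (2 ^ k a) ^ ((mo D w S).card + Fintype.card (E a))) := by
    rw [kJ, Nat.cast_prod, prod_mul_distrib, hK, ← prod_pow, mul_assoc, ← prod_mul_distrib]
    congr 1
    · exact prod_congr rfl fun a _ => by rw [Nat.cast_pow]
    · exact prod_congr rfl fun a _ => by rw [pow_add]
  have h2 : ∏ a, ((kW D w (fun q => r q + D.dg (c a) q) (P a) (R a) S : ℂ) ^ k a *
        (2 ^ k a) ^ ((mo D w S).card + Fintype.card (E a))) =
      ∑ m : (∀ a, E a → Lab2 (k a)), (∏ a, e2 (RF (R a) (m a))) *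
        ∏ a, ∑ f : mo D w S → Lab2 (k a), e2 (exW D w r (cE (c a) (P a) (m a)) S f) := by
    rw [prod_congr rfl fun a _ => kW_exp D w r (c a) (P a) (R a) S, Finset.prod_univ_sum,
      Fintype.piFinset_univ]
    exact sum_congr rfl fun m _ => prod_mul_distrib
  have h5 : (((2 : ℂ) ^ (∑ a, k a))⁻¹) ^ (mo D w S).card *
      ((2 : ℂ) ^ (∑ a, k a)) ^ (mo D w S).card = 1 := by
    rw [← mul_pow, inv_mul_cancel₀ hk, one_pow]
  calc (∏ q ∈ S, h q) * (kJ D w r c P R k S : ℂ) * ∏ a, ((2 : ℂ) ^ k a) ^ Fintype.card (E a)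
      = (∏ q ∈ S, h q) * (((2 : ℂ) ^ (∑ a, k a))⁻¹) ^ (mo D w S).card *
        ((kJ D w r c P R k S : ℂ) * ((2 : ℂ) ^ (∑ a, k a)) ^ (mo D w S).card *
          ∏ a, ((2 : ℂ) ^ k a) ^ Fintype.card (E a)) := by
        linear_combination (-(∏ q ∈ S, h q) * (kJ D w r c P R k S : ℂ) *
          ∏ a, ((2 : ℂ) ^ k a) ^ Fintype.card (E a)) * h5
    _ = _ := by
        rw [h1, h2, mul_sum]
        refine sum_congr rfl fun m _ => ?_
        rw [e1 m, e2' m]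
        ring

variable [PS ι]

open Classical in
/-- The weighted moments. -/
theorem MoJ_lim {D : Dat2 ι κ} {w : κ → ZMod 2} (hD : OKw D w) {h : ι → ℂ}
    {tr : (κ → ZMod 2) → Prop} (hw : D.Wt ∅ h tr) (r : ι → ZMod 2) (c : A → κ → ZMod 2)
    (P : ∀ a, κ → E a → ZMod 2) (R : ∀ a, Matrix (E a) (E a) (ZMod 2)) (k : A → ℕ)
    (ε : ℝ) (hε : 0 < ε) : ∃ X₀ : ℕ, ∀ X : ℕ, X₀ ≤ X →
    ‖(∑ S ∈ Sx ι X, (∏ q ∈ S, h q) * (kJ D w r c P R k S : ℂ)) *
      ∏ a, ((2 : ℂ) ^ k a) ^ Fintype.card (E a) -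
      (∑ c0 ∈ univ.filter tr, TJ k w c P R c0) * ((Sx ι X).card : ℂ)‖ ≤ ε * X := by
  have hN : (0 : ℝ) < Fintype.card (∀ a, E a → Lab2 (k a)) := by
    exact_mod_cast Fintype.card_pos
  set ε' : ℝ := ε / Fintype.card (∀ a, E a → Lab2 (k a)) with hε'
  have hε0 : 0 < ε' := by positivity
  choose X0 h0 using fun m : (∀ a, E a → Lab2 (k a)) =>
    engineG D hD.an (LW D w h r (ccJ c P m)) (LW_OK hD hw r (ccJ c P m)) ε' hε0
  refine ⟨∑ p, X0 p, fun X hX => ?_⟩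
  have hXt : ∀ p, X0 p ≤ X := fun p =>
    (single_le_sum (fun _ _ => Nat.zero_le _) (mem_univ p)).trans hX
  have hT : ∑ c0 ∈ univ.filter tr, TJ k w c P R c0 =
      ∑ m : (∀ a, E a → Lab2 (k a)), (∏ a, e2 (RF (R a) (m a))) *
        ∑ U ∈ Lgs2 (∑ a, k a), mW w tr (ccJ c P m) U := by
    unfold TJ
    rw [sum_comm]
    refine sum_congr rfl fun m _ => ?_
    rw [← mul_sum, sum_comm]
    congr 1
    refine sum_congr rfl fun U _ => ?_
    unfold mW
    rw [ccJ_zero]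
    simp only [add_zero]
    by_cases h1 : tr 0
    · rw [sum_eq_single_of_mem 0 (mem_filter.2 ⟨mem_univ _, h1⟩)]
      · by_cases h2 : ∀ l ∈ U, ccJ c P m l = 0 ∨ ccJ c P m l = w
        · rw [if_pos ⟨rfl, h2⟩, if_pos ⟨h1, h2⟩]
        · rw [if_neg fun h => h2 h.2, if_neg fun h => h2 h.2]
      · intro c _ hc
        exact if_neg fun h => hc h.1
    · rw [if_neg fun h => h1 h.1]
      refine sum_eq_zero fun c hc => if_neg fun h => h1 ?_
      rw [← h.1]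
      exact (mem_filter.1 hc).2
  have hM : (∑ S ∈ Sx ι X, (∏ q ∈ S, h q) * (kJ D w r c P R k S : ℂ)) *
      ∏ a, ((2 : ℂ) ^ k a) ^ Fintype.card (E a) =
      ∑ m : (∀ a, E a → Lab2 (k a)), (∏ a, e2 (RF (R a) (m a))) * ∑ S ∈ Sx ι X,
        ∑ F : S → Lab2 (∑ a, k a), (∏ j : S, (LW D w h r (ccJ c P m)).g (F j) j) *
          e2 (∑ j : S, ∑ l : S, (LW D w h r (ccJ c P m)).Phi (F j) (F l) * D.s j l) := by
    rw [sum_mul, sum_congr rfl fun S _ => kJ_mul D hD.tw r c P R k h S, sum_comm]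
    exact sum_congr rfl fun m _ => (mul_sum _ _ _).symm
  rw [hM, hT, sum_mul, ← sum_sub_distrib]
  calc _ ≤ ∑ m : (∀ a, E a → Lab2 (k a)), ε' * X := by
        refine (norm_sum_le _ _).trans (sum_le_sum fun m _ => ?_)
        have h2 := h0 m X (hXt m)
        rw [mul_assoc (∏ a, e2 (RF (R a) (m a))), ← mul_sub, norm_mul, norm_prod,
          prod_congr rfl fun a _ => norm_e2 _, prod_const_one, one_mul]
        exact h2
    _ = ε * X := by
        rw [sum_const, card_univ, nsmul_eq_mul, hε']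
        field_simp

/-- **The joint moments in the classes.** -/
theorem momJ {G : Type} [AddCommGroup G] [Fintype G] {D : Dat2 ι κ} {w : κ → ZMod 2}
    (hD : OKw D w) (C : Cl2 D G) (h3 : C.H3) (r : ι → ZMod 2) {c : A → κ → ZMod 2}
    (hc : DifW c w) {P : ∀ a, κ → E a → ZMod 2}
    {R : ∀ a, Matrix (E a) (E a) (ZMod 2)} (hR : ∀ a e f, R a e f = R a f e)
    (hP : ∀ a, ∀ x : E a → ZMod 2,
      ((∀ j, ∑ e, P a j e * x e = 0) ∨ ∀ j, ∑ e, P a j e * x e = w j) → x = 0)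
    (g : G) (k : A → ℕ) :
    MV (SG C g) (fun S => ∏ a, (kW D w (fun q => r q + D.dg (c a) q) (P a) (R a) S : ℝ) ^ k a)
      (∏ a, (Nk2 (k a) : ℝ)) := by
  classical
  intro ε hε
  have hW1 : (1 : ℝ) ≤ ∏ a, ((2 : ℝ) ^ k a) ^ Fintype.card (E a) := by
    calc (1 : ℝ) = ∏ _a : A, (1 : ℝ) := prod_const_one.symm
      _ ≤ _ := prod_le_prod (fun _ _ => zero_le_one) fun a _ =>
        one_le_pow₀ (one_le_pow₀ (by norm_num))
  have hν : (0 : ℝ) ≤ ∏ a, (Nk2 (k a) : ℝ) := prod_nonneg fun a _ => Nat.cast_nonneg _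
  refine cls_moment C h3
    (fun S => ∏ a, (kW D w (fun q => r q + D.dg (c a) q) (P a) (R a) S : ℝ) ^ k a)
    (TJ k w c P R) (∏ a, ((2 : ℝ) ^ k a) ^ Fintype.card (E a)) hW1
    (fun h tr hw ε hε => ?_) g _ hν ?_ ε hε
  · obtain ⟨X0, h0⟩ := MoJ_lim hD hw r c P R k ε hε
    refine ⟨X0, fun X hX => ?_⟩
    have h1 := h0 X hX
    unfold kJ at h1
    push_cast at h1 ⊢
    exact h1
  · rw [sum_eq_single (0 : κ → ZMod 2)]
    · simp only [Pi.zero_apply, zero_mul, sum_const_zero, e2_zero, one_mul]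
      rw [TJ_zero hR hc hP, prod_mul_distrib]
      push_cast
      rfl
    · intro c' _ hc'
      have h1 : TJ k w c P R c' = 0 := by
        unfold TJ
        refine sum_eq_zero fun m _ => ?_
        rw [sum_eq_zero fun U _ => if_neg fun h => hc' h.1, mul_zero]
      rw [h1, mul_zero]
    · intro h
      exact absurd (mem_univ _) h

end

end Pool.Agent.Lib.MP_1a91b9_ntW
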