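import Pool.Agent.Lib.MP_1a91b9_ntW.DJ.Mom

/-!
# MP_1a91b9_nt (twists over `Q(√-2)`, several twists), part D: the joint densities

`MVd`: mean values up to a small multiple of the number of elements. `ind_prod`: the joint density of
several independent kernels being trivial. `ind_sum`: signed sums.
-/

set_option autoImplicit false
set_option linter.unusedSectionVars false

namespace Pool.Agent.Lib.MP_1a91b9_ntW

open Finset Filter Topology Pool.Agent.Lib.MP_1a91b9_ntQ Pool.Agent.Lib.MP_1a91b9_ntQ.Da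
open Pool.Agent.Lib.MP_1a91b9_ntM

noncomputable section

variable {β : Type}

/-- The mean value of `f` is `v`, up to `δ #(B X) + ε X`. -/
def MVd (B : ℕ → Finset β) (f : β → ℝ) (v : ℝ) : Prop :=
  ∀ δ : ℝ, 0 < δ → ∀ ε : ℝ, 0 < ε → ∃ X₀ : ℕ, ∀ X : ℕ, X₀ ≤ X →
    |∑ b ∈ B X, f b - v * (B X).card| ≤ δ * (B X).card + ε * X

theorem MVd.add {B : ℕ → Finset β} {f h : β → ℝ} {v w : ℝ} (hf : MVd B f v) (hh : MVd B h w) :
    MVd B (fun x => f x + h x) (v + w) := by
  intro δ hδ ε hε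
  obtain ⟨X1, h1⟩ := hf (δ / 2) (by positivity) (ε / 2) (by positivity)
  obtain ⟨X2, h2⟩ := hh (δ / 2) (by positivity) (ε / 2) (by positivity)
  refine ⟨max X1 X2, fun X hX => ?_⟩
  have h3 := h1 X (le_trans (le_max_left _ _) hX)
  have h4 := h2 X (le_trans (le_max_right _ _) hX)
  rw [sum_add_distrib]
  calc |∑ b ∈ B X, f b + ∑ b ∈ B X, h b - (v + w) * (B X).card|
      = |(∑ b ∈ B X, f b - v * (B X).card) + (∑ b ∈ B X, h b - w * (B X).card)| := by
        congr 1
        ring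
    _ ≤ _ := abs_add_le _ _
    _ ≤ (δ / 2 * (B X).card + ε / 2 * X) + (δ / 2 * (B X).card + ε / 2 * X) := add_le_add h3 h4
    _ = δ * (B X).card + ε * X := by ring

theorem MVd.smul {B : ℕ → Finset β} {f : β → ℝ} {v : ℝ} (hf : MVd B f v) (a : ℝ) :
    MVd B (fun x => a * f x) (a * v) := by
  intro δ hδ ε hε
  obtain ⟨X1, h1⟩ := hf (δ / (|a| + 1)) (by positivity) (ε / (|a| + 1)) (by positivity)
  refine ⟨X1, fun X hX => ?_⟩
  have h3 := h1 X hX
  rw [← mul_sum, mul_assoc, ← mul_sub, abs_mul]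
  calc |a| * |∑ b ∈ B X, f b - v * (B X).card|
      ≤ (|a| + 1) * (δ / (|a| + 1) * (B X).card + ε / (|a| + 1) * X) := by
        refine mul_le_mul (by linarith) h3 (abs_nonneg _) (by positivity)
    _ = δ * (B X).card + ε * X := by field_simp

theorem MVd.congr {B : ℕ → Finset β} {f h : β → ℝ} {v w : ℝ} (hf : MVd B f v)
    (h1 : ∀ X, ∀ x ∈ B X, h x = f x) (h2 : w = v) : MVd B h w := by
  intro δ hδ ε hε
  obtain ⟨X0, h0⟩ := hf δ hδ ε hε
  refine ⟨X0, fun X hX => ?_⟩
  rw [sum_congr rfl (h1 X), h2]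
  exact h0 X hX

theorem MVd.zero (B : ℕ → Finset β) : MVd B (fun _ => 0) 0 := by
  intro δ hδ ε hε
  refine ⟨0, fun X _ => ?_⟩
  rw [sum_const_zero, zero_mul, sub_zero, abs_zero]
  positivity

theorem MVd.sum {ι : Type} {B : ℕ → Finset β} {f : ι → β → ℝ} {v : ι → ℝ} (s : Finset ι)
    (h : ∀ i ∈ s, MVd B (f i) (v i)) : MVd B (fun x => ∑ i ∈ s, f i x) (∑ i ∈ s, v i) := by
  classical
  induction s using Finset.induction_on with
  | empty => exact (MVd.zero B).congr (fun _ _ _ => rfl) rfl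
  | insert a s ha ih =>
    exact ((h a (mem_insert_self _ _)).add (ih fun i hi => h i (mem_insert_of_mem hi))).congr
      (fun _ x _ => sum_insert ha) (sum_insert ha)

/-- The lower density from the mean value of the indicator function. -/
theorem MVd.lower {B : ℕ → Finset β} {f : β → ℝ} {v : ℝ} (h : MVd B f v) {κ₀ : ℝ} (hκ : κ₀ < v)
    (ε : ℝ) (hε : 0 < ε) : ∃ X₀ : ℕ, ∀ X : ℕ, X₀ ≤ X →
      κ₀ * (B X).card - ε * X ≤ ∑ b ∈ B X, f b := by
  obtain ⟨X0, h0⟩ := h (v - κ₀) (by linarith) ε hε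
  refine ⟨X0, fun X hX => ?_⟩
  have h1 := (abs_le.1 (h0 X hX)).1
  linarith

variable {A : Type} [Fintype A] [DecidableEq A]

/-- The upper bound for the density. -/
theorem dens_prod_upper {B : ℕ → Finset β} {x : A → β → ℕ}
    (hp : ∀ a b, ∃ r, x a b = 2 ^ r)
    (hm : ∀ k : A → ℕ, MV B (fun b => ∏ a, (x a b : ℝ) ^ k a) (∏ a, (Nk2 (k a) : ℝ)))
    {κ₀ : ℝ} (hκ : cinf2 ^ Fintype.card A < κ₀) (ε : ℝ) (hε : 0 < ε) :
    ∃ X₀ : ℕ, ∀ X : ℕ, X₀ ≤ X →
      (((B X).filter fun b => ∀ a, x a b = 1).card : ℝ) ≤ κ₀ * (B X).card + ε * X := by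
  classical
  set n := Fintype.card A with hn
  have h2 : Tendsto (fun N : ℕ => 2 * N) atTop atTop :=
    tendsto_atTop_mono (fun N => by show N ≤ 2 * N; omega) tendsto_id
  have h4 := (tendsto_sK2.comp h2).pow n
  obtain ⟨N, hN⟩ := (h4.eventually (gt_mem_nhds hκ)).exists
  have heven : Even (2 * N) := ⟨N, by ring⟩
  have hB : MV B (fun b => ∏ a, pK2 (2 * N) (x a b)) (sK2 (2 * N) ^ n) := by
    refine (MV_prod hm fun _ => 2 * N).congr (fun b => rfl) ?_
    rw [prod_const, card_univ]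
  obtain ⟨X0, h0⟩ := hB ε hε
  refine ⟨X0, fun X hX => ?_⟩
  have h1 := (abs_le.1 (h0 X hX)).2
  have h3 : (((B X).filter fun b => ∀ a, x a b = 1).card : ℝ) ≤
      ∑ b ∈ B X, ∏ a, pK2 (2 * N) (x a b) := by
    rw [card_eq_sum_ones, sum_filter]
    push_cast
    refine sum_le_sum fun b _ => ?_
    have h5 : ∀ a, (if x a b = 1 then (1 : ℝ) else 0) ≤ pK2 (2 * N) (x a b) := by
      intro a
      split_ifs with h
      · rw [h, Nat.cast_one, pK2_one]
      · obtain ⟨r, hr⟩ := hp a b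
        have hr0 : r ≠ 0 := by
          intro h0
          rw [h0, pow_zero] at hr
          exact h hr
        rw [hr]
        push_cast
        exact (pK2_pow (2 * N) r hr0).2 heven
    have h6 : (if ∀ a, x a b = 1 then (1 : ℝ) else 0) = ∏ a, if x a b = 1 then (1 : ℝ) else 0 := by
      split_ifs with h
      · exact (prod_eq_one fun a _ => if_pos (h a)).symm
      · push Not at h
        obtain ⟨a, ha⟩ := h
        exact (prod_eq_zero (mem_univ a) (if_neg ha)).symm
    rw [h6]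
    exact prod_le_prod (fun a _ => by split_ifs <;> norm_num) fun a _ => h5 a
  have h7 := mul_le_mul_of_nonneg_right (le_of_lt hN) (Nat.cast_nonneg (α := ℝ) (B X).card)
  simp only [Function.comp_apply] at h7
  linarith

/-- **The joint density.** -/
theorem ind_prod [Nonempty A] {B : ℕ → Finset β} {x : A → β → ℕ}
    (hp : ∀ a b, ∃ r, x a b = 2 ^ r)
    (hm : ∀ k : A → ℕ, MV B (fun b => ∏ a, (x a b : ℝ) ^ k a) (∏ a, (Nk2 (k a) : ℝ))) :
    MVd B (fun b => ∏ a, if x a b = 1 then (1 : ℝ) else 0) (cinf2 ^ Fintype.card A) := by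
  classical
  intro δ hδ ε hε
  obtain ⟨X1, h1⟩ := dens_prod hp hm
    (show cinf2 ^ Fintype.card A - δ < cinf2 ^ Fintype.card A by linarith) ε hε
  obtain ⟨X2, h2⟩ := dens_prod_upper hp hm
    (show cinf2 ^ Fintype.card A < cinf2 ^ Fintype.card A + δ by linarith) ε hε
  refine ⟨max X1 X2, fun X hX => ?_⟩
  have h3 := h1 X ((le_max_left _ _).trans hX)
  have h4 := h2 X ((le_max_right _ _).trans hX)
  have h5 : ∑ b ∈ B X, (∏ a, if x a b = 1 then (1 : ℝ) else 0) =
      (((B X).filter fun b => ∀ a, x a b = 1).card : ℝ) := by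
    rw [card_eq_sum_ones, sum_filter]
    push_cast
    refine sum_congr rfl fun b _ => ?_
    split_ifs with h
    · exact prod_eq_one fun a _ => if_pos (h a)
    · push Not at h
      obtain ⟨a, ha⟩ := h
      exact prod_eq_zero (mem_univ a) (if_neg ha)
  rw [h5, abs_le]
  constructor <;> linarith

/-- **Signed sums.** `x a i` is the size of the kernel of the `i`-th system of `a`; the systems
`x a (i a)` are jointly independent for every choice `i`. -/
theorem ind_sum [Nonempty A] {I : Type} [Fintype I] {B : ℕ → Finset β} {x : A → I → β → ℕ}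
    (hp : ∀ a i b, ∃ r, x a i b = 2 ^ r)
    (hm : ∀ (i : A → I) (k : A → ℕ), MV B (fun b => ∏ a, (x a (i a) b : ℝ) ^ k a)
      (∏ a, (Nk2 (k a) : ℝ))) (u : A → I → ℝ) :
    MVd B (fun b => ∏ a, ∑ i, u a i * if x a i b = 1 then (1 : ℝ) else 0)
      (cinf2 ^ Fintype.card A * ∏ a, ∑ i, u a i) := by
  classical
  have h1 : ∀ i : A → I, MVd B (fun b => (∏ a, u a (i a)) *
      ∏ a, if x a (i a) b = 1 then (1 : ℝ) else 0)
      ((∏ a, u a (i a)) * cinf2 ^ Fintype.card A) := fun i =>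
    (ind_prod (x := fun a => x a (i a)) (fun a b => hp a (i a) b) (hm i)).smul _
  refine (MVd.sum univ fun i _ => h1 i).congr (fun X b _ => ?_) ?_
  · rw [Finset.prod_univ_sum, Fintype.piFinset_univ]
    exact sum_congr rfl fun i _ => prod_mul_distrib
  · rw [Finset.prod_univ_sum, Fintype.piFinset_univ, mul_comm, sum_mul]

end

end Pool.Agent.Lib.MP_1a91b9_ntW
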