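import Pool.Agent.Lib.MP_1a91b9_ntM.DJ.Dec
import Pool.Agent.Lib.MP_1a91b9_ntW.D.DenW

/-!
# MP_1a91b9_nt (twists over `Q(√-2)`, several twists), part D: products of label systems

The maximal totally singular sets of the product on which the linear term is `0` or `w` are products,
if the class vectors `c a` are different modulo `w`.
-/

set_option autoImplicit false
set_option linter.unusedSectionVars false

namespace Pool.Agent.Lib.MP_1a91b9_ntW

open Finset Pool.Agent.Lib.MP_1a91b9_ntH Pool.Agent.Lib.MP_1a91b9_ntQ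
open Pool.Agent.Lib.MP_1a91b9_ntQ.Da
open Pool.Agent.Lib.MP_1a91b9_ntV
open Pool.Agent.Lib.MP_1a91b9_ntM

noncomputable section

section Gen

variable {ι : Type} [DecidableEq ι] {κ : Type} [Fintype κ] [DecidableEq κ] {k : ℕ}
  {D : Dat2 ι κ} {w : κ → ZMod 2}

/-- The sum over the labellings of the engine, for a general class vector with `cc 0 = 0`. -/
theorem lab_gen (tw : ∀ p q, p ≠ q → D.s p q + D.s q p = D.dg w p * D.dg w q) (h : ι → ℂ)
    (r : ι → ZMod 2) (cc : Lab2 k → κ → ZMod 2) (h0 : cc 0 = 0) (S : Finset ι) :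
    ∑ F : S → Lab2 k, (∏ j : S, (LW D w h r cc).g (F j) j) *
      e2 (∑ j : S, ∑ l : S, (LW D w h r cc).Phi (F j) (F l) * D.s j l) =
    (∏ q ∈ S, h q) * (((2 : ℂ) ^ k)⁻¹) ^ (mo D w S).card * ∑ f : mo D w S → Lab2 k,
      e2 (∑ j : mo D w S, (xD D w r S j * Q2 (f j) + D.dg (cc (f j)) j) +
        ∑ j : mo D w S, ∑ l : mo D w S, PhiQ (f j) (f l) * D.s j l) := by
  classical
  rw [mul_sum]
  symm
  refine Fintype.sum_of_injective (eS0 (k := k) D w S) (eS0_inj S) _ _ ?_ ?_
  · intro F hF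
    have h2 : ∃ j : S, ¬ D.dg w j = 0 ∧ F j ≠ 0 := by
      by_contra hcon
      push Not at hcon
      apply hF
      refine ⟨fun q => F ⟨q, ((mem_mo D w).1 q.2).1⟩, ?_⟩
      funext j
      by_cases hj : D.dg w j = 0
      · exact e0_mo (D := D) (w := w) _ ⟨j, (mem_mo D w).2 ⟨j.2, hj⟩⟩
      · rw [hcon j hj]
        exact e0_on _ hj
    obtain ⟨j, hj, hFj⟩ := h2
    have h3 : ∏ j : S, (LW D w h r cc).g (F j) j = 0 :=
      prod_eq_zero (mem_univ j) (gW_ne D w h r _ hj hFj)
    rw [h3, zero_mul]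
  · intro f
    have h4 := phi_split tw S f
    have h5 : ∑ j : S, ∑ l : S, (LW D w h r cc).Phi (eS0 D w S f j) (eS0 D w S f l) *
        D.s j l = ∑ j : mo D w S, (∑ p ∈ on D w S, D.s j p) * Q2 (f j) +
        ∑ j : mo D w S, ∑ l : mo D w S, PhiQ (f j) (f l) * D.s j l := h4
    have h6 := prod_split S f fun l q => (LW D w h r cc).g l q
    beta_reduce at h6
    have h7 : ∏ j ∈ on D w S, (LW D w h r cc).g 0 j = ∏ j ∈ on D w S, h j := by
      refine prod_congr rfl fun j hj => ?_
      rw [gW_one D w h r _ ((mem_on D w).1 hj).2, h0, dg_zero, e2_zero, mul_one]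
    have h8 : ∏ j : mo D w S, (LW D w h r cc).g (f j) j =
        (∏ j ∈ mo D w S, h j) * ((((2 : ℂ) ^ k)⁻¹) ^ (mo D w S).card *
          e2 (∑ j : mo D w S, (r j * Q2 (f j) + D.dg (cc (f j)) j))) := by
      have h9 : ∀ j : mo D w S, (LW D w h r cc).g (f j) j = h j *
          (((2 : ℂ) ^ k)⁻¹ * e2 (r j * Q2 (f j) + D.dg (cc (f j)) j)) := by
        intro j
        rw [gW_zero D w h r _ ((mem_mo D w).1 j.2).2]
      rw [prod_congr rfl fun j _ => h9 j, prod_mul_distrib, prod_mul_distrib, prod_const,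
        card_univ, Fintype.card_coe, ← e2_sum, prod_coe_sort (mo D w S) h]
    have h10 : ∏ q ∈ S, h q = (∏ j ∈ mo D w S, h j) * ∏ j ∈ on D w S, h j := by
      rw [← prod_filter_mul_prod_filter_not S fun q => D.dg w q = 0]
      rw [mo, on]
    rw [h5, h6, h7, h8, h10]
    have h11 : ∑ j : mo D w S, (xD D w r S j * Q2 (f j) + D.dg (cc (f j)) j) +
        ∑ j : mo D w S, ∑ l : mo D w S, PhiQ (f j) (f l) * D.s j l =
        ∑ j : mo D w S, (r j * Q2 (f j) + D.dg (cc (f j)) j) +
        (∑ j : mo D w S, (∑ p ∈ on D w S, D.s j p) * Q2 (f j) +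
        ∑ j : mo D w S, ∑ l : mo D w S, PhiQ (f j) (f l) * D.s j l) := by
      unfold xD
      simp only [add_mul, sum_add_distrib]
      ring
    rw [h11, e2_add]
    ring

end Gen

variable {A : Type} [Fintype A] [DecidableEq A] {k : A → ℕ} {κ : Type} [Fintype κ]
  [DecidableEq κ] {E : A → Type} [∀ a, Fintype (E a)] [∀ a, DecidableEq (E a)]

/-- The labels of the product are the labels of the sum. -/
def eqL (k : A → ℕ) : LabP k ≃ Lab2 (∑ a, k a) where
  toFun := toL k
  invFun l := fun a => (fun j => l.1 (sgP k ⟨a, j⟩), fun j => l.2 (sgP k ⟨a, j⟩))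
  left_inv l := by
    funext a
    refine Prod.ext (funext fun j => toL_fst l a j) (funext fun j => toL_snd l a j)
  right_inv l := by
    refine Prod.ext (funext fun i => ?_) (funext fun i => ?_)
    · obtain ⟨⟨a, j⟩, rfl⟩ := (sgP k).surjective i
      exact toL_fst _ a j
    · obtain ⟨⟨a, j⟩, rfl⟩ := (sgP k).surjective i
      exact toL_snd _ a j

theorem eqL_apply (l : LabP k) : eqL k l = toL k l := rfl

/-- The exponents of the pairs. -/
def PhiP (l m : LabP k) : ZMod 2 := ∑ a, PhiQ (l a) (m a)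

theorem PhiQ_toL (l m : LabP k) : PhiQ (toL k l) (toL k m) = PhiP l m := by
  unfold PhiQ PhiP dotProduct
  rw [sum_sgP]
  refine sum_congr rfl fun a _ => ?_
  unfold PhiQ dotProduct
  refine sum_congr rfl fun j _ => ?_
  rw [toL_snd]
  show _ * ((toL k l).1 _ + (toL k m).1 _) = _
  rw [toL_fst, toL_fst]
  rfl

/-- The maximal totally singular sets of the product. -/
def MxF (k : A → ℕ) : Finset (Finset (LabP k)) := by
  classical exact univ.filter fun W => MxP W

theorem mem_MxF {W : Finset (LabP k)} : W ∈ MxF k ↔ MxP W := by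
  classical
  rw [MxF, mem_filter]
  exact ⟨fun h => h.2, fun h => ⟨mem_univ _, h⟩⟩

theorem MxP.of_im {W : Finset (LabP k)} (h : Mx2 (imL W)) : MxP W where
  unl := by
    intro l hl m hm
    rw [← Q2_toL, toL_sub]
    exact h.unl _ (mem_imL.2 hl) _ (mem_imL.2 hm)
  card := by
    have := h.card
    rwa [card_imL, ← prod_two_pow] at this
  zero := by
    rw [← mem_imL, toL_zero]
    exact h.zero

/-- Sums over the maximal totally singular sets. -/
theorem sum_Lgs2 {M : Type} [AddCommMonoid M] (F : Finset (Lab2 (∑ a, k a)) → M) :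
    ∑ U ∈ Lgs2 (∑ a, k a), F U = ∑ W ∈ MxF k, F (imL W) := by
  classical
  symm
  refine sum_bij (fun W _ => imL W) ?_ ?_ ?_ ?_
  · intro W hW
    exact mem_Lgs2.2 (mem_MxF.1 hW).im
  · intro W _ W' _ h
    ext l
    rw [← mem_imL, ← mem_imL (U := W'), h]
  · intro U hU
    have h1 : imL (U.image (eqL k).symm) = U := by
      ext x
      obtain ⟨l, rfl⟩ := (eqL k).surjective x
      rw [eqL_apply, mem_imL, mem_image]
      constructor
      · rintro ⟨y, hy, h2⟩
        rw [← h2]
        have h3 : toL k ((eqL k).symm y) = y := (eqL k).apply_symm_apply y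
        rwa [h3]
      · intro h
        exact ⟨_, h, (eqL k).symm_apply_apply l⟩
    refine ⟨_, mem_MxF.2 (MxP.of_im ?_), h1⟩
    rw [h1]
    exact mem_Lgs2.1 hU
  · intro W _
    rfl

theorem forall_imL {W : Finset (LabP k)} {p : Lab2 (∑ a, k a) → Prop} :
    (∀ l ∈ imL W, p l) ↔ ∀ l ∈ W, p (toL k l) := by
  constructor
  · intro h l hl
    exact h _ (mem_imL.2 hl)
  · intro h x hx
    rw [imL, mem_image] at hx
    obtain ⟨l, hl, rfl⟩ := hx
    exact h l hl

variable {c : A → κ → ZMod 2} {P : ∀ a, κ → E a → ZMod 2} {m : ∀ a, E a → Lab2 (k a)}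
  {w : κ → ZMod 2}

/-- The class vectors are different modulo `w`. -/
def DifW (c : A → κ → ZMod 2) (w : κ → ZMod 2) : Prop :=
  ∀ a b, a ≠ b → c a + c b ≠ 0 ∧ c a + c b ≠ w

/-- A functional which vanishes at `w` and not at `v`. -/
theorem exists_fun {v : κ → ZMod 2} (h0 : v ≠ 0) (hw : v ≠ w) :
    ∃ lam : κ → ZMod 2, ∑ j, lam j * w j = 0 ∧ ∑ j, lam j * v j = 1 := by
  have h1 : ∀ x : ZMod 2, x ≠ 0 → x = 1 := by decide
  have hs : ∀ (i : κ) (f : κ → ZMod 2), ∑ j, (Pi.single i (1 : ZMod 2) : κ → ZMod 2) j * f j = f i := by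
    intro i f
    rw [sum_eq_single i (fun j _ hj => by rw [Pi.single_eq_of_ne hj, zero_mul])
      fun h => absurd (mem_univ _) h, Pi.single_eq_same, one_mul]
  by_cases h : ∃ j, v j ≠ 0 ∧ w j = 0
  · obtain ⟨j, hj, hj'⟩ := h
    exact ⟨Pi.single j 1, by rw [hs, hj'], by rw [hs]; exact h1 _ hj⟩
  · push Not at h
    obtain ⟨i, hi⟩ := Function.ne_iff.1 h0
    obtain ⟨i', hi'⟩ := Function.ne_iff.1 hw
    have hv : v i' = 0 := by
      by_contra hne
      exact hi' (by rw [h1 _ hne, h1 _ (h i' hne)])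
    have hwi' : w i' = 1 := h1 _ fun h3 => hi' (by rw [hv, h3])
    refine ⟨Pi.single i 1 + Pi.single i' 1, ?_, ?_⟩
    · simp only [Pi.add_apply, add_mul, sum_add_distrib, hs]
      rw [h1 _ (h i hi), hwi']
      decide
    · simp only [Pi.add_apply, add_mul, sum_add_distrib, hs]
      rw [hv, add_zero]
      exact h1 _ hi

theorem cP_zero (j : κ) : cP c P m 0 j = 0 := by
  unfold cP cE
  refine sum_eq_zero fun a _ => ?_
  have h1 : (0 : LabP k) a = 0 := rfl
  rw [h1, Q2_zero, mul_zero, zero_add]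
  refine sum_eq_zero fun e _ => ?_
  have h2 : B2 (0 : Lab2 (k a)) (m a e) = 0 := by
    unfold B2
    simp
  rw [h2, mul_zero]

/-- **The decomposition.** -/
theorem decW (hc : DifW c w) {W : Finset (LabP k)} (hM : MxP W)
    (h0 : ∀ l ∈ W, cP c P m l = 0 ∨ cP c P m l = w) :
    W = Fintype.piFinset (pj W) ∧ ∀ a, Mx2 (pj W a) := by
  classical
  have hst : ∀ lam : {lam : κ → ZMod 2 // ∑ j, lam j * w j = 0}, ∀ x ∈ W, ∀ y ∈ W,
      ∑ a, (∑ j, lam.1 j * c a j) * B2 (x a) (y a) = 0 := by
    intro lam x hx y hy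
    have hxy := hM.add_mem hx hy
    have h1 : ∀ l ∈ W, ∑ j, lam.1 j * cP c P m l j = 0 := by
      intro l hl
      rcases h0 l hl with h2 | h2
      · rw [h2]
        simp
      · rw [h2]
        exact lam.2
    have h2 : ∀ j, ∑ a, c a j * B2 (x a) (y a) =
        cP c P m (x + y) j + cP c P m x j + cP c P m y j := by
      intro j
      have h3 := cP_four (c := c) (P := P) (m := m) 0 x y j
      rw [zero_add, zero_add, cP_zero] at h3
      rw [← h3]
      ring
    have h4 : ∑ a, (∑ j, lam.1 j * c a j) * B2 (x a) (y a) =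
        ∑ j, lam.1 j * ∑ a, c a j * B2 (x a) (y a) := by
      simp only [sum_mul, mul_sum]
      rw [sum_comm]
      exact sum_congr rfl fun j _ => sum_congr rfl fun a _ => by ring
    rw [h4]
    simp only [h2, mul_add, sum_add_distrib]
    rw [h1 _ hxy, h1 _ hx, h1 _ hy]
    decide
  have hinj : Function.Injective fun (a : A) (lam : {lam : κ → ZMod 2 // ∑ j, lam j * w j = 0}) =>
      ∑ j, lam.1 j * c a j := by
    intro a b hab
    by_contra hne
    obtain ⟨h1, h2⟩ := hc a b hne
    obtain ⟨lam, h3, h4⟩ := exists_fun h1 h2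
    have h5 := congrFun hab ⟨lam, h3⟩
    simp only [Pi.add_apply, mul_add, sum_add_distrib] at h4
    beta_reduce at h5
    rw [h5, z2_add_self] at h4
    exact zero_ne_one h4
  have hfm : ∀ a, ∀ x ∈ W, fm (ia a) x ∈ W := fun a x hx => hM.fm_mem hinj hst a hx
  have hsum : ∀ (s : Finset A) (x : A → LabP k), (∀ a ∈ s, x a ∈ W) → ∑ a ∈ s, x a ∈ W := by
    intro s x
    induction s using Finset.induction_on with
    | empty =>
      intro _
      rw [sum_empty]
      exact hM.zero
    | insert b s hb ih =>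
      intro h
      rw [sum_insert hb]
      exact hM.add_mem (h b (mem_insert_self _ _)) (ih fun a ha => h a (mem_insert_of_mem ha))
  have hprod : W = Fintype.piFinset (pj W) := by
    ext l
    rw [Fintype.mem_piFinset]
    constructor
    · exact fun hl a => mem_pj.2 ⟨l, hl, rfl⟩
    · intro hl
      have h1 : ∀ a, ∃ v ∈ W, v a = l a := fun a => mem_pj.1 (hl a)
      choose v hv hv2 using h1
      have h3 : ∑ a, fm (ia a) (v a) = l := by
        funext b
        rw [Finset.sum_apply, sum_eq_single b]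
        · show ia b b • v b b = l b
          rw [ia, Pi.single_eq_same, one_smul, hv2]
        · intro a _ hab
          show ia a b • _ = (0 : Lab2 (k b))
          rw [ia, Pi.single_eq_of_ne hab.symm, zero_smul]
        · exact fun h => absurd (mem_univ _) h
      rw [← h3]
      exact hsum univ (fun a => fm (ia a) (v a)) fun a _ => hfm a _ (hv a)
  have hunl : ∀ a, Unl2 (pj W a) := by
    intro a x hx y hy
    obtain ⟨l, hl, rfl⟩ := mem_pj.1 hx
    obtain ⟨l', hl', rfl⟩ := mem_pj.1 hy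
    have h2 := hM.Q (hfm a _ (hM.add_mem hl hl'))
    have h3 : QP (fm (ia a) (l + l')) = Q2 (l a + l' a) := by
      rw [QP, sum_eq_single a]
      · show Q2 (ia a a • (l a + l' a)) = _
        rw [ia, Pi.single_eq_same, one_smul]
      · intro b _ hb
        show Q2 (ia a b • (l b + l' b)) = 0
        rw [ia, Pi.single_eq_of_ne hb, zero_smul, Q2_zero]
      · exact fun h => absurd (mem_univ _) h
    rw [l2_sub, ← h3, h2]
  have hzero : ∀ a, (0 : Lab2 (k a)) ∈ pj W a := fun a => mem_pj.2 ⟨0, hM.zero, rfl⟩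
  refine ⟨hprod, fun a => ⟨hunl a, ?_, hzero a⟩⟩
  have hle : ∀ a, (pj W a).card ≤ 2 ^ k a := fun a => K1 (hunl a)
  have hpos : ∀ a, 0 < (pj W a).card := fun a => card_pos.2 ⟨0, hzero a⟩
  have hpr : ∏ a, (pj W a).card = ∏ a, 2 ^ k a := by
    rw [← Fintype.card_piFinset, ← hprod, hM.card]
  by_contra hcon
  have h5 : ∏ a, (pj W a).card < ∏ a, 2 ^ k a :=
    prod_lt_prod (fun a _ => hpos a) (fun a _ => hle a) ⟨a, mem_univ a, lt_of_le_of_ne (hle a) hcon⟩
  exact absurd hpr h5.ne

/-- A product of maximal totally singular sets is a maximal totally singular set. -/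
theorem MxP.pi {V : ∀ a, Finset (Lab2 (k a))} (h : ∀ a, Mx2 (V a)) : MxP (Fintype.piFinset V) where
  unl := by
    intro l hl l' hl'
    rw [Fintype.mem_piFinset] at hl hl'
    exact sum_eq_zero fun a _ => (h a).unl _ (hl a) _ (hl' a)
  card := by
    rw [Fintype.card_piFinset]
    exact prod_congr rfl fun a _ => (h a).card
  zero := by
    rw [Fintype.mem_piFinset]
    exact fun a => (h a).zero


theorem pj_pi {V : ∀ a, Finset (Lab2 (k a))} (h : ∀ a, (0 : Lab2 (k a)) ∈ V a) (a : A) :
    pj (Fintype.piFinset V) a = V a := by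
  classical
  ext x
  rw [mem_pj]
  constructor
  · rintro ⟨f, hf, rfl⟩
    exact Fintype.mem_piFinset.1 hf a
  · intro hx
    refine ⟨Function.update 0 a x, Fintype.mem_piFinset.2 fun b => ?_, Function.update_self ..⟩
    by_cases hb : b = a
    · subst hb
      rw [Function.update_self]
      exact hx
    · rw [Function.update_of_ne hb]
      exact h b

/-- **The condition.** -/
theorem cond_iff (hc : DifW c w)
    (hP : ∀ a, ∀ x : E a → ZMod 2,
      ((∀ j, ∑ e, P a j e * x e = 0) ∨ ∀ j, ∑ e, P a j e * x e = w j) → x = 0)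
    {W : Finset (LabP k)} (hM : MxP W) :
    (∀ l ∈ W, cP c P m l = 0 ∨ cP c P m l = w) ↔
      ∃ V : ∀ a, Finset (Lab2 (k a)), (∀ a, Mx2 (V a) ∧ ∀ e, m a e ∈ V a) ∧
        Fintype.piFinset V = W := by
  classical
  constructor
  · intro h0
    obtain ⟨hpr, hmx⟩ := decW hc hM h0
    refine ⟨pj W, fun a => ⟨hmx a, fun e => ?_⟩, hpr.symm⟩
    rw [(hmx a).mem_iff]
    intro x hx
    rw [B2_comm]
    refine congrFun (hP a (fun e => B2 x (m a e)) ?_) e
    have h2 : Function.update (0 : LabP k) a x ∈ W := by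
      rw [hpr, Fintype.mem_piFinset]
      intro b
      by_cases hb : b = a
      · subst hb
        rw [Function.update_self]
        exact hx
      · rw [Function.update_of_ne hb]
        exact (hmx b).zero
    have h3 : ∀ j, cP c P m (Function.update (0 : LabP k) a x) j = ∑ e, P a j e * B2 x (m a e) := by
      intro j
      have h4 := cP_zero (c := c) (P := P) (m := m) j
      unfold cP at h4 ⊢
      rw [← add_sum_erase _ _ (mem_univ a)] at h4 ⊢
      rw [Function.update_self]
      have h5 : ∑ b ∈ univ.erase a, cE (c b) (P b) (m b) (Function.update (0 : LabP k) a x b) j =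
          ∑ b ∈ univ.erase a, cE (c b) (P b) (m b) ((0 : LabP k) b) j :=
        sum_congr rfl fun b hb => by rw [Function.update_of_ne (ne_of_mem_erase hb)]
      have h6 : cE (c a) (P a) (m a) ((0 : LabP k) a) j = 0 := by
        unfold cE
        have h1 : (0 : LabP k) a = 0 := rfl
        rw [h1, Q2_zero, mul_zero, zero_add]
        refine sum_eq_zero fun e _ => ?_
        have h2 : B2 (0 : Lab2 (k a)) (m a e) = 0 := by
          unfold B2
          simp
        rw [h2, mul_zero]
      rw [h6, zero_add] at h4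
      rw [h5, h4, add_zero]
      unfold cE
      rw [(hmx a).unl.Q (hmx a).zero hx, mul_zero, zero_add]
    rcases h0 _ h2 with h4 | h4
    · left
      intro j
      rw [← h3, h4, Pi.zero_apply]
    · right
      intro j
      rw [← h3, h4]
  · rintro ⟨V, hV, rfl⟩ l hl
    left
    rw [Fintype.mem_piFinset] at hl
    funext j
    unfold cP cE
    refine sum_eq_zero fun a _ => ?_
    rw [(hV a).1.unl.Q (hV a).1.zero (hl a), mul_zero, zero_add]
    refine sum_eq_zero fun e _ => ?_
    rw [(hV a).1.unl.B (hV a).1.zero (hl a) ((hV a).2 e), mul_zero]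

open Classical in
/-- **The number of main terms.** -/
theorem count_W (hc : DifW c w)
    (hP : ∀ a, ∀ x : E a → ZMod 2,
      ((∀ j, ∑ e, P a j e * x e = 0) ∨ ∀ j, ∑ e, P a j e * x e = w j) → x = 0) :
    ((MxF k).filter fun W => ∀ l ∈ W, cP c P m l = 0 ∨ cP c P m l = w).card =
      ∏ a, ((Lgs2 (k a)).filter fun V => ∀ e, m a e ∈ V).card := by
  have h1 : (MxF k).filter (fun W => ∀ l ∈ W, cP c P m l = 0 ∨ cP c P m l = w) =
      (Fintype.piFinset fun a => (Lgs2 (k a)).filter fun V => ∀ e, m a e ∈ V).image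
        fun V => Fintype.piFinset V := by
    ext W
    rw [mem_filter, mem_MxF, mem_image]
    constructor
    · rintro ⟨hM, h0⟩
      obtain ⟨V, hV, rfl⟩ := (cond_iff hc hP hM).1 h0
      refine ⟨V, Fintype.mem_piFinset.2 fun a => mem_filter.2 ⟨mem_Lgs2.2 (hV a).1, (hV a).2⟩, rfl⟩
    · rintro ⟨V, hV, rfl⟩
      have hV' : ∀ a, Mx2 (V a) ∧ ∀ e, m a e ∈ V a := fun a => by
        have := mem_filter.1 (Fintype.mem_piFinset.1 hV a)
        exact ⟨mem_Lgs2.1 this.1, this.2⟩
      have hM := MxP.pi fun a => (hV' a).1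
      exact ⟨hM, (cond_iff hc hP hM).2 ⟨V, hV', rfl⟩⟩
  rw [h1, card_image_of_injOn, Fintype.card_piFinset]
  intro V hV V' hV' hVV
  have hz : ∀ V : ∀ a, Finset (Lab2 (k a)),
      V ∈ (Fintype.piFinset fun a => (Lgs2 (k a)).filter fun V => ∀ e, m a e ∈ V) →
      ∀ a, (0 : Lab2 (k a)) ∈ V a := fun V hV a =>
    (mem_Lgs2.1 (mem_filter.1 (Fintype.mem_piFinset.1 hV a)).1).zero
  funext a
  rw [← pj_pi (hz V (mem_coe.1 hV)) a, ← pj_pi (hz V' (mem_coe.1 hV')) a]
  exact congrArg (fun s => pj s a) hVV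

end

end Pool.Agent.Lib.MP_1a91b9_ntW
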