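import Pool.Agent.Lib.MP_1a91b9_ntW.DJ.Dens
import Pool.Agent.Lib.MP_1a91b9_ntQ.D.Cl4B

/-!
# MP_1a91b9_nt (twists over `Q(√-2)`, several twists), part D: the primes outside a finite set

`OKw_off`: the hypotheses of the engine for the primes outside `B`. `det_glue`: the matrix of
`S ∪ T` is a matrix of `S` over the primes outside `B`, with the primes of `T` in the border.
-/

set_option autoImplicit false
set_option linter.unusedSectionVars false

namespace Pool.Agent.Lib.MP_1a91b9_ntW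

open Finset Pool.Agent.Lib.MP_1a91b9_ntH Pool.Agent.Lib.MP_1a91b9_ntQ
open Pool.Agent.Lib.MP_1a91b9_ntQ.Da
open Pool.Agent.Lib.MP_1a91b9_ntV

noncomputable section

variable {ι : Type} [DecidableEq ι] {κ : Type} [Fintype κ] [DecidableEq κ]

theorem z2_eq_of {x y : ZMod 2} (h : x + y = 0) : x = y := by
  revert x y
  decide

/-- The vector `w` for the primes outside `B`. -/
def wO (B : Finset ι) (w : κ → ZMod 2) : κ ⊕ B → ZMod 2 := Sum.elim w fun _ => 0

theorem dg_wO (D : Dat2 ι κ) (B : Finset ι) (w : κ → ZMod 2) (q : Off B) :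
    (D.off B).dg (wO B w) q = D.dg w q.1 := by
  unfold Dat2.dg
  rw [Fintype.sum_sum_type]
  simp only [wO, Sum.elim_inr, zero_mul, sum_const_zero, add_zero]
  rfl

section OK

variable [PS ι]

theorem SumB_off {ψ : ι → ℝ} {C : ℝ} (hψ : ∀ q, |ψ q| ≤ 1) (h : SumB ψ C) (B : Finset ι) :
    SumB (fun q : Off B => ψ q.1) (C * Real.exp B.card) where
  hB := by
    have h1 : (1 : ℝ) ≤ Real.exp B.card := Real.one_le_exp (Nat.cast_nonneg _)
    have h2 := h.hB
    nlinarith
  bound := by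
    intro σ h1 h3
    filter_upwards [h.bound σ h1 h3] with x hx
    have h4 : ∑ q ∈ pr (Off B) x, ψ q.1 * (PS.N q : ℝ) ^ (-σ) =
        ∑ q ∈ (pr ι x) \ B, ψ q * (PS.N q : ℝ) ^ (-σ) := by
      rw [← pr_off]
      exact (sum_up _ fun q => ψ q * (PS.N q : ℝ) ^ (-σ)).symm
    have hC : C ≠ 0 := by
      have := h.hB
      intro h0
      rw [h0] at this
      linarith
    rw [h4, Real.log_mul hC (Real.exp_ne_zero _), Real.log_exp]
    rw [← sum_sdiff (inter_subset_left : pr ι x ∩ B ⊆ pr ι x), sdiff_inter_self_left] at hx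
    have h5 : -(B.card : ℝ) ≤ ∑ q ∈ pr ι x ∩ B, ψ q * (PS.N q : ℝ) ^ (-σ) := by
      calc -(B.card : ℝ) ≤ -((pr ι x ∩ B).card : ℝ) :=
            neg_le_neg (Nat.cast_le.2 (card_le_card inter_subset_right))
        _ = ∑ _q ∈ pr ι x ∩ B, (-1 : ℝ) := by rw [sum_const, nsmul_eq_mul, mul_neg, mul_one]
        _ ≤ _ := by
          refine sum_le_sum fun q _ => ?_
          have h6 : |ψ q * (PS.N q : ℝ) ^ (-σ)| ≤ 1 := by
            rw [abs_mul, abs_of_pos (rpow_pos' q σ)]
            calc |ψ q| * (PS.N q : ℝ) ^ (-σ) ≤ 1 * (1 / 2) :=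
                  mul_le_mul (hψ q) (rpow_lt_one q h1) (rpow_pos' q σ).le (by norm_num)
              _ ≤ 1 := by norm_num
          exact (abs_le.1 h6).1
    linarith

theorem mz_off {B : Finset ι} {h : ι → ℂ} (hm : Mz B h) :
    Mz (∅ : Finset (Off B)) (fun q => h q.1) := by
  classical
  intro ε hε
  obtain ⟨X0, h0⟩ := hm ε hε
  refine ⟨X0, fun X hX => ?_⟩
  refine le_trans (le_of_eq (congrArg _ ?_)) (h0 X hX)
  have h3 := sum_Sx_off (ι := ι) B X fun S => ∏ q ∈ S, h q
  refine Eq.trans ?_ (h3.trans ?_)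
  · refine sum_congr ?_ fun S _ => (prod_up S h).symm
    ext S
    rw [mem_filter]
    exact ⟨fun h => h.1, fun h => ⟨h, disjoint_empty_right S⟩⟩
  · refine sum_congr ?_ fun S _ => rfl
    ext S
    rw [mem_filter]

/-- **The hypotheses for the primes outside `B`.** -/
theorem OKw_off {D : Dat2 ι κ} {w : κ → ZMod 2} (hD : OKw D w) {B : Finset ι}
    (hB : ∀ (T : Finset ι) (c : κ → ZMod 2), T ⊆ B → (T ≠ ∅ ∨ c ≠ 0) →
      Mz B (fun q => e2 (D.ex1 T c q))) : OKw (D.off B) (wO B w) where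
  tw p q hpq := by
    rw [dg_wO, dg_wO]
    exact hD.tw p.1 q.1 fun h => hpq (Subtype.ext h)
  an := by
    obtain ⟨C1, h1⟩ := hD.an.cheb
    obtain ⟨C2, h2⟩ := hD.an.zt
    obtain ⟨C, K, c, hc, hC⟩ := hD.an.bl
    exact ⟨⟨C1, cheb_off h1 B⟩, ⟨C2, zt_off h2 B⟩, ⟨C, K, c, hc, bl_off hC B⟩⟩
  cb := by
    obtain ⟨C, hC⟩ := hD.cb
    exact ⟨_, cb_off hC B⟩
  mz c hc := by
    have h1 : spB c ≠ ∅ ∨ (fun j => c (Sum.inl j)) ≠ 0 := by
      by_contra hcon
      push Not at hcon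
      obtain ⟨h1, h2⟩ := hcon
      apply hc
      funext j
      rcases j with j | b
      · exact congrFun h2 j
      · by_contra hb
        have h4 : b.1 ∈ spB c := mem_spB.2 ⟨b.2, hb⟩
        rw [h1] at h4
        exact notMem_empty _ h4
    have h2 := mz_off (hB (spB c) (fun j => c (Sum.inl j)) (spB_subset c) h1)
    have h3 : (fun q : Off B => e2 (D.ex1 (spB c) (fun j => c (Sum.inl j)) q.1)) =
        fun q => e2 ((D.off B).ex1 ∅ c q) := by
      funext q
      rw [ex1_off, up_empty, empty_union]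
    rwa [h3] at h2
  w0 := fun h => hD.w0 (funext fun j => congrFun h (Sum.inl j))
  cbn := by
    obtain ⟨C, hC⟩ := hD.cbn
    refine ⟨C * Real.exp B.card, ?_⟩
    have h1 : (fun q : Off B => -(D.off B).ch ∅ (wO B w) q) = fun q => -D.ch ∅ w q.1 := by
      funext q
      rw [ch_empty, ch_empty, dg_wO]
    rw [h1]
    refine SumB_off (ψ := fun q => -D.ch ∅ w q) (fun q => ?_) hC B
    rw [abs_neg, ch_empty, sg2_abs]

end OK

/-! ### The matrices -/

section Mat

variable {F : Type} [Fintype F] [DecidableEq F] (D : Dat2 ι κ) (w : κ → ZMod 2)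

theorem mem_mo_off {B : Finset ι} {S : Finset (Off B)} {q : Off B} :
    q ∈ mo (D.off B) (wO B w) S ↔ q ∈ S ∧ D.dg w q.1 = 0 := by
  rw [mem_mo, dg_wO]

theorem mem_on_off {B : Finset ι} {S : Finset (Off B)} {q : Off B} :
    q ∈ on (D.off B) (wO B w) S ↔ q ∈ S ∧ ¬ D.dg w q.1 = 0 := by
  rw [mem_on, dg_wO]

theorem mo_gl {B : Finset ι} (S : Finset (Off B)) (T : Finset ι) :
    mo D w (up S ∪ T) = up (mo (D.off B) (wO B w) S) ∪ mo D w T := by
  ext q
  rw [mem_mo, mem_union, mem_union, mem_up, mem_up, mem_mo]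
  constructor
  · rintro ⟨⟨h1, h2⟩ | h1, h3⟩
    · exact Or.inl ⟨h1, (mem_mo_off D w).2 ⟨h2, h3⟩⟩
    · exact Or.inr ⟨h1, h3⟩
  · rintro (⟨h1, h2⟩ | h1)
    · have h3 := (mem_mo_off D w).1 h2
      exact ⟨Or.inl ⟨h1, h3.1⟩, h3.2⟩
    · exact ⟨Or.inr h1.1, h1.2⟩

theorem on_gl {B : Finset ι} (S : Finset (Off B)) (T : Finset ι) :
    on D w (up S ∪ T) = up (on (D.off B) (wO B w) S) ∪ on D w T := by
  ext q
  rw [mem_on, mem_union, mem_union, mem_up, mem_up, mem_on]
  constructor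
  · rintro ⟨⟨h1, h2⟩ | h1, h3⟩
    · exact Or.inl ⟨h1, (mem_on_off D w).2 ⟨h2, h3⟩⟩
    · exact Or.inr ⟨h1, h3⟩
  · rintro (⟨h1, h2⟩ | h1)
    · have h3 := (mem_on_off D w).1 h2
      exact ⟨Or.inl ⟨h1, h3.1⟩, h3.2⟩
    · exact ⟨Or.inr h1.1, h1.2⟩

/-- The border of the small matrix. -/
def PoW (B T : Finset ι) (P : κ → F → ZMod 2) : κ ⊕ B → mo D w T ⊕ F → ZMod 2
  | Sum.inl j, Sum.inr f => P j f
  | Sum.inl _, Sum.inl _ => 0
  | Sum.inr b, Sum.inl t => if b.1 = t.1 then 1 else 0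
  | Sum.inr _, Sum.inr _ => 0

/-- The corner of the small matrix. -/
def RoW (T : Finset ι) (x : ι → ZMod 2) (P : κ → F → ZMod 2)
    (z : Matrix F F (ZMod 2)) : Matrix (mo D w T ⊕ F) (mo D w T ⊕ F) (ZMod 2)
  | Sum.inl t, Sum.inl t' => if t.1 = t'.1 then x t + ∑ l ∈ T.erase t, D.s t l else D.s t t'
  | Sum.inl t, Sum.inr f => D.bd P t f
  | Sum.inr f, Sum.inl t => D.bd P t f
  | Sum.inr f, Sum.inr f' => z f f'

variable {D w}

theorem RoW_symm (tw : ∀ p q, p ≠ q → D.s p q + D.s q p = D.dg w p * D.dg w q)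
    (T : Finset ι) (x : ι → ZMod 2) (P : κ → F → ZMod 2) {z : Matrix F F (ZMod 2)}
    (hz : ∀ e f, z e f = z f e) (e f : mo D w T ⊕ F) :
    RoW D w T x P z e f = RoW D w T x P z f e := by
  rcases e with t | e <;> rcases f with t' | f
  · simp only [RoW]
    by_cases h : t.1 = t'.1
    · have h' : t = t' := Subtype.ext h
      subst h'
      rfl
    · rw [if_neg h, if_neg fun h' => h h'.symm]
      have h1 := tw _ _ h
      rw [((mem_mo D w).1 t.2).2, zero_mul] at h1
      exact z2_eq_of h1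
  · rfl
  · rfl
  · exact hz e f

/-- The index set of the big matrix. -/
def fG {B T : Finset ι} (S : Finset (Off B)) :
    mo (D.off B) (wO B w) S ⊕ (mo D w T ⊕ F) → mo D w (up S ∪ T) ⊕ F
  | Sum.inl q => Sum.inl ⟨q.1.1, by
      rw [mo_gl]
      exact mem_union_left _ (mem_up.2 ⟨q.1.2, q.2⟩)⟩
  | Sum.inr (Sum.inl t) => Sum.inl ⟨t.1, by
      rw [mo_gl]
      exact mem_union_right _ t.2⟩
  | Sum.inr (Sum.inr f) => Sum.inr f

theorem fG_bij {B T : Finset ι} (hT : T ⊆ B) (S : Finset (Off B)) :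
    Function.Bijective (fG (F := F) (D := D) (w := w) (T := T) S) := by
  constructor
  · intro x y h
    rcases x with q | t | f <;> rcases y with q' | t' | f'
    · have h1 : q.1.1 = q'.1.1 := Sum.inl.inj (β := F) (congrArg (Sum.map Subtype.val id) h)
      exact congrArg Sum.inl (Subtype.ext (Subtype.ext h1))
    · have h1 : q.1.1 = t'.1 := Sum.inl.inj (β := F) (congrArg (Sum.map Subtype.val id) h)
      exact absurd (h1 ▸ hT ((mem_mo D w).1 t'.2).1) q.1.2
    · cases h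
    · have h1 : t.1 = q'.1.1 := Sum.inl.inj (β := F) (congrArg (Sum.map Subtype.val id) h)
      exact absurd (h1 ▸ hT ((mem_mo D w).1 t.2).1) q'.1.2
    · have h1 : t.1 = t'.1 := Sum.inl.inj (β := F) (congrArg (Sum.map Subtype.val id) h)
      exact congrArg (fun u => Sum.inr (Sum.inl u)) (Subtype.ext h1)
    · cases h
    · cases h
    · cases h
    · have h1 : f = f' := Sum.inr.inj (α := ι) (congrArg (Sum.map Subtype.val id) h)
      rw [h1]
  · intro y
    rcases y with q | f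
    · have h1 : q.1 ∈ up (mo (D.off B) (wO B w) S) ∪ mo D w T := by
        rw [← mo_gl]
        exact q.2
      rcases mem_union.1 h1 with h2 | h2
      · obtain ⟨h3, h4⟩ := mem_up.1 h2
        exact ⟨Sum.inl ⟨⟨q.1, h3⟩, h4⟩, rfl⟩
      · exact ⟨Sum.inr (Sum.inl ⟨q.1, h2⟩), rfl⟩
    · exact ⟨Sum.inr (Sum.inr f), rfl⟩

/-- The diagonal. -/
theorem xD_row (r : ι → ZMod 2) {U : Finset ι} {q : ι} (hq : D.dg w q = 0) :
    xD D w r U q + ∑ l ∈ (mo D w U).erase q, D.s q l = r q + ∑ l ∈ U.erase q, D.s q l := by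
  have h1 : U.erase q = on D w U ∪ (mo D w U).erase q := by
    ext p
    rw [mem_erase, mem_union, mem_erase, mem_on, mem_mo]
    constructor
    · rintro ⟨h1, h2⟩
      by_cases h : D.dg w p = 0
      · exact Or.inr ⟨h1, h2, h⟩
      · exact Or.inl ⟨h2, h⟩
    · rintro (⟨h1, h2⟩ | ⟨h1, h2, _⟩)
      · refine ⟨?_, h1⟩
        rintro rfl
        exact h2 hq
      · exact ⟨h1, h2⟩
  have h2 : Disjoint (on D w U) ((mo D w U).erase q) := by
    rw [disjoint_left]
    intro p h3 h4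
    exact ((mem_on D w).1 h3).2 ((mem_mo D w).1 (mem_of_mem_erase h4)).2
  rw [h1, sum_union h2, xD, add_assoc]

theorem erase_gl_S {B T : Finset ι} (hT : T ⊆ B) {S : Finset (Off B)} (q : Off B) :
    (up S ∪ T).erase q.1 = up (S.erase q) ∪ T := by
  ext p
  rw [mem_erase, mem_union, mem_union, mem_up, mem_up]
  constructor
  · rintro ⟨h1, ⟨h2, h3⟩ | h2⟩
    · exact Or.inl ⟨h2, mem_erase.2 ⟨fun h => h1 (congrArg Subtype.val h), h3⟩⟩
    · exact Or.inr h2
  · rintro (⟨h1, h2⟩ | h1)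
    · obtain ⟨h3, h4⟩ := mem_erase.1 h2
      exact ⟨fun h => h3 (Subtype.ext h), Or.inl ⟨h1, h4⟩⟩
    · exact ⟨fun h => q.2 (h ▸ hT h1), Or.inr h1⟩

theorem erase_gl_T {B T : Finset ι} (hT : T ⊆ B) {S : Finset (Off B)} {t : ι} (ht : t ∈ T) :
    (up S ∪ T).erase t = up S ∪ T.erase t := by
  ext p
  rw [mem_erase, mem_union, mem_union, mem_erase]
  constructor
  · rintro ⟨h1, h2 | h2⟩
    · exact Or.inl h2
    · exact Or.inr ⟨h1, h2⟩
  · rintro (h1 | ⟨h1, h2⟩)
    · refine ⟨?_, Or.inl h1⟩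
      rintro rfl
      exact (mem_up.1 h1).1 (hT ht)
    · exact ⟨h1, Or.inr h2⟩

theorem bd_off_t (D : Dat2 ι κ) (w : κ → ZMod 2) {B T : Finset ι} (hT : T ⊆ B)
    (P : κ → F → ZMod 2) (q : Off B) (t : mo D w T) :
    (D.off B).bd (PoW D w B T P) q (Sum.inl t) = D.s q.1 t := by
  unfold Dat2.bd
  rw [Fintype.sum_sum_type]
  have h1 : ∑ j : κ, PoW D w B T P (Sum.inl j) (Sum.inl t) * (D.off B).a q (Sum.inl j) = 0 :=
    sum_eq_zero fun j _ => by simp only [PoW, zero_mul]
  rw [h1, zero_add, sum_eq_single ⟨t.1, hT ((mem_mo D w).1 t.2).1⟩]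
  · simp only [PoW, if_true, one_mul]
    rfl
  · intro b _ hb
    simp only [PoW]
    rw [if_neg fun h' => hb (Subtype.ext h'), zero_mul]
  · exact fun h' => absurd (mem_univ _) h'

theorem bd_off_f (D : Dat2 ι κ) (w : κ → ZMod 2) {B T : Finset ι} (P : κ → F → ZMod 2)
    (q : Off B) (f : F) :
    (D.off B).bd (PoW D w B T P) q (Sum.inr f) = D.bd P q.1 f := by
  unfold Dat2.bd
  rw [Fintype.sum_sum_type]
  have h1 : ∑ b : B, PoW D w B T P (Sum.inr b) (Sum.inr f) * (D.off B).a q (Sum.inr b) = 0 :=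
    sum_eq_zero fun j _ => by simp only [PoW, zero_mul]
  rw [h1, add_zero]
  rfl

/-- **The glue.** -/
theorem NXB_glue (tw : ∀ p q, p ≠ q → D.s p q + D.s q p = D.dg w p * D.dg w q)
    {B T : Finset ι} (hT : T ⊆ B) (r : ι → ZMod 2) (c : κ → ZMod 2) (P : κ → F → ZMod 2)
    (z : Matrix F F (ZMod 2)) {α : ι → ZMod 2} {S : Finset (Off B)}
    (hα : ∀ t ∈ T, α t = ∑ q ∈ up S, D.s q t) :
    (NXB D.s (xD D w (fun q => r q + D.dg c q) (up S ∪ T)) (D.bd P) z
      (mo D w (up S ∪ T))).submatrix (Equiv.ofBijective _ (fG_bij hT S))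
      (Equiv.ofBijective _ (fG_bij hT S)) =
    MW (D.off B) (wO B w) (fun q => r q.1 + (D.off B).dg (coB B T c) q) (PoW D w B T P)
      (RoW D w T (fun t => r t + D.dg c t + α t) P z) S := by
  have hsym : ∀ t ∈ T, D.dg w t = 0 → ∀ q : Off B, D.s t q.1 = D.s q.1 t := by
    intro t ht h0 q
    have h1 := tw t q.1 (fun h => q.2 (h ▸ hT ht))
    rw [h0, zero_mul] at h1
    exact z2_eq_of h1
  ext x y
  rcases x with q | t | f <;> rcases y with q' | t' | f'
  · obtain ⟨hqS, hq0⟩ := (mem_mo_off D w).1 q.2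
    have hq0' : (D.off B).dg (wO B w) q.1 = 0 := by
      rw [dg_wO]
      exact hq0
    by_cases h : q = q'
    · subst h
      change (if _ = _ then _ else _) = (if _ = _ then _ else _)
      rw [if_pos rfl, if_pos rfl]
      change xD D w (fun q => r q + D.dg c q) (up S ∪ T) q.1.1 +
        ∑ l ∈ (mo D w (up S ∪ T)).erase q.1.1, D.s q.1.1 l =
        xD (D.off B) (wO B w) (fun q => r q.1 + (D.off B).dg (coB B T c) q) S q.1 +
        ∑ l ∈ (mo (D.off B) (wO B w) S).erase q.1, (D.off B).s q.1 l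
      rw [xD_row _ hq0, xD_row _ hq0', erase_gl_S hT, sum_union
        (disjoint_of_subset_right hT (disj_up _)), sum_up, dg_off D hT]
      have e : ∀ a b c d : ZMod 2, a + b + (c + d) = a + (b + d) + c := by
        intro a b c d
        ring
      exact e _ _ _ _
    · change (if _ = _ then _ else _) = (if _ = _ then _ else _)
      refine Eq.trans (if_neg fun h' => ?_) (if_neg h).symm
      have h2 : q.1.1 = q'.1.1 := congrArg (fun u : mo D w (up S ∪ T) => u.1) h'
      exact h (Subtype.ext (Subtype.ext h2))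
  · have hne : q.1.1 ≠ t'.1 := fun h => q.1.2 (h ▸ hT ((mem_mo D w).1 t'.2).1)
    change (if _ = _ then _ else _) = (D.off B).bd (PoW D w B T P) q.1 (Sum.inl t')
    rw [if_neg fun h' => hne (congrArg Subtype.val h'), bd_off_t D w hT]
  · change D.bd P q.1.1 f' = (D.off B).bd (PoW D w B T P) q.1 (Sum.inr f')
    rw [bd_off_f D w]
  · have hne : t.1 ≠ q'.1.1 := fun h => q'.1.2 (h ▸ hT ((mem_mo D w).1 t.2).1)
    change (if _ = _ then _ else _) = (D.off B).bd (PoW D w B T P) q'.1 (Sum.inl t)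
    rw [if_neg fun h' => hne (congrArg Subtype.val h'), bd_off_t D w hT]
    exact hsym t.1 ((mem_mo D w).1 t.2).1 ((mem_mo D w).1 t.2).2 q'.1
  · obtain ⟨htT, ht0⟩ := (mem_mo D w).1 t.2
    by_cases h : t = t'
    · subst h
      change (if _ = _ then _ else _) = (if _ = _ then _ else _)
      rw [if_pos rfl, if_pos rfl]
      change xD D w (fun q => r q + D.dg c q) (up S ∪ T) t.1 +
        ∑ l ∈ (mo D w (up S ∪ T)).erase t.1, D.s t.1 l =
        r t.1 + D.dg c t.1 + α t.1 + ∑ l ∈ T.erase t.1, D.s t.1 l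
      rw [xD_row _ ht0, erase_gl_T hT htT, sum_union (disjoint_of_subset_right
        ((erase_subset _ _).trans hT) (disj_up _)), hα t.1 htT, sum_up, sum_up]
      have h1 : ∑ q ∈ S, D.s t.1 q.1 = ∑ q ∈ S, D.s q.1 t.1 :=
        sum_congr rfl fun q _ => hsym t.1 htT ht0 q
      rw [h1]
      ring
    · change (if _ = _ then _ else _) = (if _ = _ then _ else _)
      refine Eq.trans (if_neg fun h' => ?_) (if_neg fun h' => ?_).symm
      · have h2 : t.1 = t'.1 := congrArg (fun u : mo D w (up S ∪ T) => u.1) h'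
        exact h (Subtype.ext h2)
      · exact h (Subtype.ext h')
  · rfl
  · change D.bd P q'.1.1 f = (D.off B).bd (PoW D w B T P) q'.1 (Sum.inr f)
    rw [bd_off_f D w]
  · rfl
  · rfl

/-- **The determinants.** -/
theorem det_glue (tw : ∀ p q, p ≠ q → D.s p q + D.s q p = D.dg w p * D.dg w q)
    {B T : Finset ι} (hT : T ⊆ B) (r : ι → ZMod 2) (c : κ → ZMod 2) (P : κ → F → ZMod 2)
    (z : Matrix F F (ZMod 2)) {α : ι → ZMod 2} {S : Finset (Off B)}
    (hα : ∀ t ∈ T, α t = ∑ q ∈ up S, D.s q t) :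
    (NXB D.s (xD D w (fun q => r q + D.dg c q) (up S ∪ T)) (D.bd P) z
      (mo D w (up S ∪ T))).det =
    (MW (D.off B) (wO B w) (fun q => r q.1 + (D.off B).dg (coB B T c) q) (PoW D w B T P)
      (RoW D w T (fun t => r t + D.dg c t + α t) P z) S).det := by
  rw [← NXB_glue tw hT r c P z hα, Matrix.det_submatrix_equiv_self]

/-! ### The hypotheses on the border and on the class vectors -/

theorem hP_off {B T : Finset ι} (hT : T ⊆ B) {P : κ → F → ZMod 2}
    (hP : ∀ x : F → ZMod 2,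
      ((∀ j, ∑ e, P j e * x e = 0) ∨ ∀ j, ∑ e, P j e * x e = w j) → x = 0)
    (x : mo D w T ⊕ F → ZMod 2)
    (h : (∀ j, ∑ e, PoW D w B T P j e * x e = 0) ∨
      ∀ j, ∑ e, PoW D w B T P j e * x e = wO B w j) : x = 0 := by
  have hl : ∀ j : κ, ∑ e, PoW D w B T P (Sum.inl j) e * x e =
      ∑ e, P j e * x (Sum.inr e) := by
    intro j
    rw [Fintype.sum_sum_type]
    simp only [PoW, zero_mul, sum_const_zero, zero_add]
  have hr : ∀ t : mo D w T, ∑ e, PoW D w B T P
      (Sum.inr ⟨t.1, hT ((mem_mo D w).1 t.2).1⟩) e * x e = x (Sum.inl t) := by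
    intro t
    rw [Fintype.sum_sum_type]
    simp only [PoW, zero_mul, sum_const_zero, add_zero]
    rw [sum_eq_single t]
    · rw [if_pos rfl, one_mul]
    · intro t' _ ht'
      rw [if_neg fun h' => ht' (Subtype.ext h'.symm), zero_mul]
    · exact fun h' => absurd (mem_univ _) h'
  have h1 : (fun e => x (Sum.inr e)) = 0 := by
    apply hP
    rcases h with h | h
    · left
      intro j
      rw [← hl, h]
    · right
      intro j
      rw [← hl, h]
      rfl
  funext e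
  rcases e with t | e
  · rw [← hr t]
    rcases h with h | h
    · rw [h]
      rfl
    · rw [h]
      rfl
  · exact congrFun h1 e

/-- The class vectors are different. -/
theorem difW_off {A : Type} {B : Finset ι} {T : A → Finset ι} (hT : ∀ a, T a ⊆ B)
    {c : A → κ → ZMod 2}
    (hc : ∀ a b, a ≠ b → T a = T b → c a + c b ≠ 0 ∧ c a + c b ≠ w) :
    DifW (fun a => coB B (T a) (c a)) (wO B w) := by
  intro a b hab
  by_cases h : T a = T b
  · obtain ⟨h1, h2⟩ := hc a b hab h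
    constructor
    · intro h3
      apply h1
      funext j
      exact congrFun h3 (Sum.inl j)
    · intro h3
      apply h2
      funext j
      exact congrFun h3 (Sum.inl j)
  · obtain ⟨t, ht⟩ : ∃ t, ¬ (t ∈ T a ↔ t ∈ T b) := by
      by_contra hcon
      push Not at hcon
      exact h (ext hcon)
    have htB : t ∈ B := by
      by_contra h0
      exact ht ⟨fun h1 => absurd (hT a h1) h0, fun h1 => absurd (hT b h1) h0⟩
    have h4 : (coB B (T a) (c a) + coB B (T b) (c b)) (Sum.inr ⟨t, htB⟩) = 1 := by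
      change (if t ∈ T a then (1 : ZMod 2) else 0) + (if t ∈ T b then 1 else 0) = 1
      by_cases h5 : t ∈ T a
      · have h6 : t ∉ T b := fun h6 => ht ⟨fun _ => h6, fun _ => h5⟩
        rw [if_pos h5, if_neg h6, add_zero]
      · have h6 : t ∈ T b := by
          by_contra h6
          exact ht ⟨fun h7 => absurd h7 h5, fun h7 => absurd h7 h6⟩
        rw [if_neg h5, if_pos h6, zero_add]
    constructor
    · intro h3
      rw [h3] at h4
      exact zero_ne_one h4
    · intro h3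
      rw [h3] at h4
      exact zero_ne_one h4

end Mat

end

end Pool.Agent.Lib.MP_1a91b9_ntW
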